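import Pool.Agent.Lib.MP_551055_al.MT.Defs

/-!
# Many trees: basic facts
-/

set_option autoImplicit false

namespace Pool.Agent.Lib.MP_551055_al.MT

open Pool.Agent.Lib.MP_551055_al
open Matrix

/-! ## Coefficients -/

section

variable {N : Type} [Monoid N]

theorem coeff_sum_ne {α : Type} {s : Finset α} {f : α → ZM N} {m : N}
    (h : (∑ a ∈ s, f a).coeff m ≠ 0) : ∃ a ∈ s, (f a).coeff m ≠ 0 := by
  classical
  by_contra hn
  push Not at hn
  apply h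
  induction s using Finset.induction_on with
  | empty => rfl
  | insert a s ha ih =>
    rw [Finset.sum_insert ha, MonoidAlgebra.coeff_add, Finsupp.add_apply,
      hn a (Finset.mem_insert_self a s), zero_add]
    by_cases h2 : (∑ a ∈ s, f a).coeff m = 0
    · exact h2
    · exact ih h2 fun b hb => hn b (Finset.mem_insert_of_mem hb)

theorem coeff_add_ne {x y : ZM N} {m : N} (h : (x + y).coeff m ≠ 0) :
    x.coeff m ≠ 0 ∨ y.coeff m ≠ 0 := by
  by_contra hn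
  push Not at hn
  apply h
  rw [MonoidAlgebra.coeff_add, Finsupp.add_apply, hn.1, hn.2, add_zero]

theorem coeff_neg_ne {x : ZM N} {m : N} (h : (-x).coeff m ≠ 0) : x.coeff m ≠ 0 := by
  intro hn
  apply h
  rw [MonoidAlgebra.coeff_neg, Finsupp.neg_apply, hn, neg_zero]

theorem coeff_one_ne {m : N} (h : (1 : ZM N).coeff m ≠ 0) : m = 1 := by
  classical
  by_contra hn
  apply h
  rw [MonoidAlgebra.one_def, MonoidAlgebra.coeff_single, Finsupp.single_apply,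
    if_neg fun h => hn h.symm]

theorem coeff_single_ne {a m : N} {c : ℤ} (h : (MonoidAlgebra.single a c : ZM N).coeff m ≠ 0) :
    m = a := by
  classical
  by_contra hn
  apply h
  rw [MonoidAlgebra.coeff_single, Finsupp.single_apply, if_neg fun h => hn h.symm]

theorem coeff_mul_ne {x y : ZM N} {m : N} (h : (x * y).coeff m ≠ 0) :
    ∃ a b, x.coeff a ≠ 0 ∧ y.coeff b ≠ 0 ∧ a * b = m := by
  classical
  rw [MonoidAlgebra.coeff_mul] at h
  by_contra hn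
  push Not at hn
  apply h
  rw [Finsupp.sum, Finset.sum_eq_zero]
  intro a ha
  rw [Finsupp.sum, Finset.sum_eq_zero]
  intro b hb
  rw [if_neg]
  exact hn a b (Finsupp.mem_support_iff.1 ha) (Finsupp.mem_support_iff.1 hb)

theorem coeff_matmul_ne {α β δ : Type} [Fintype β] {f : Matrix α β (ZM N)}
    {g : Matrix β δ (ZM N)} {l : α} {k : δ} {m : N} (h : ((f * g) l k).coeff m ≠ 0) :
    ∃ j a b, (f l j).coeff a ≠ 0 ∧ (g j k).coeff b ≠ 0 ∧ a * b = m := by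
  rw [Matrix.mul_apply] at h
  obtain ⟨j, -, hj⟩ := coeff_sum_ne h
  obtain ⟨a, b, ha, hb, hab⟩ := coeff_mul_ne hj
  exact ⟨j, a, b, ha, hb, hab⟩

theorem coeff_vecMul_ne {α β : Type} [Fintype α] {x : α → ZM N} {f : Matrix α β (ZM N)}
    {k : β} {m : N} (h : ((x ᵥ* f) k).coeff m ≠ 0) :
    ∃ j a b, (x j).coeff a ≠ 0 ∧ (f j k).coeff b ≠ 0 ∧ a * b = m := by
  have h1 : (x ᵥ* f) k = ∑ j, x j * f j k := rfl
  rw [h1] at h
  obtain ⟨j, -, hj⟩ := coeff_sum_ne h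
  obtain ⟨a, b, ha, hb, hab⟩ := coeff_mul_ne hj
  exact ⟨j, a, b, ha, hb, hab⟩

end

/-! ## Control -/

section

variable {Γ : Type} [Group Γ] {D : Type} {P : D → Type} [∀ i, PartialOrder (P i)]
  [∀ i, MulAction Γ (P i)] {N : Type} [Monoid N]
variable {π : N →* Γ} {U U' : Finset D} {r s : ℤ} {X Y Z : Ob P}

theorem SzAct.smul_le_iff [SzAct Γ P] (i : D) (γ : Γ) (a b : P i) : γ • a ≤ γ • b ↔ a ≤ b := by
  constructor
  · intro h
    have h1 := SzAct.mono (Γ := Γ) (P := P) i γ⁻¹ _ _ h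
    rwa [inv_smul_smul, inv_smul_smul] at h1
  · exact SzAct.mono i γ a b

theorem SzAct.smul_le [SzAct Γ P] {i : D} {γ : Γ} {a b : P i} (h : a ≤ b) : γ • a ≤ γ • b :=
  SzAct.mono i γ a b h

theorem Ct.zero : Ct π U r X Y 0 := fun _ _ _ h => absurd rfl h

theorem Ct.one : Ct π U 0 X X 1 := by
  intro l k m h
  by_cases hlk : l = k
  · subst hlk
    rw [Matrix.one_apply_eq] at h
    rw [coeff_one_ne h, map_one]
    exact ⟨(add_zero _).symm, fun i _ => by rw [one_smul]⟩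
  · rw [Matrix.one_apply_ne hlk] at h
    exact absurd rfl h

theorem Ct.add {f g : Matrix X.ι Y.ι (ZM N)} (hf : Ct π U r X Y f) (hg : Ct π U r X Y g) :
    Ct π U r X Y (f + g) := by
  intro l k m h
  rcases coeff_add_ne h with h | h
  · exact hf l k m h
  · exact hg l k m h

theorem Ct.neg {f : Matrix X.ι Y.ι (ZM N)} (hf : Ct π U r X Y f) : Ct π U r X Y (-f) :=
  fun l k m h => hf l k m (coeff_neg_ne h)

theorem Ct.sub {f g : Matrix X.ι Y.ι (ZM N)} (hf : Ct π U r X Y f) (hg : Ct π U r X Y g) :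
    Ct π U r X Y (f - g) := by
  rw [sub_eq_add_neg]
  exact hf.add hg.neg

theorem Ct.mul [SzAct Γ P] {f : Matrix X.ι Y.ι (ZM N)} {g : Matrix Y.ι Z.ι (ZM N)}
    (hf : Ct π U r X Y f) (hg : Ct π U s Y Z g) : Ct π U (r + s) X Z (f * g) := by
  intro l k m h
  obtain ⟨j, a, b, ha, hb, hab⟩ := coeff_matmul_ne h
  obtain ⟨h1, h2⟩ := hf l j a ha
  obtain ⟨h3, h4⟩ := hg j k b hb
  refine ⟨by rw [h3, h1, add_assoc], fun i hi => ?_⟩
  rw [← hab, map_mul, mul_smul]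
  exact (h2 i hi).trans (SzAct.smul_le (h4 i hi))

theorem Ct.mul' [SzAct Γ P] {t : ℤ} {f : Matrix X.ι Y.ι (ZM N)} {g : Matrix Y.ι Z.ι (ZM N)}
    (hf : Ct π U r X Y f) (hg : Ct π U s Y Z g) (ht : r + s = t) : Ct π U t X Z (f * g) :=
  ht ▸ hf.mul hg

theorem Ct.mono {f : Matrix X.ι Y.ι (ZM N)} (hf : Ct π U r X Y f) (hU : U' ⊆ U) :
    Ct π U' r X Y f :=
  fun l k m h => ⟨(hf l k m h).1, fun i hi => (hf l k m h).2 i (hU hi)⟩

/-- Multiplication of a matrix by the scalar `a` from the left, if all terms of `a` act trivially on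
the sizes. -/
theorem Ct.smul [SzAct Γ P] {f : Matrix X.ι Y.ι (ZM N)} (hf : Ct π U r X Y f) {a : ZM N}
    (ha : ∀ m, a.coeff m ≠ 0 → π m = 1) : Ct π U r X Y (a • f) := by
  intro l k m h
  rw [Matrix.smul_apply, smul_eq_mul] at h
  obtain ⟨b, c, hb, hc, hbc⟩ := coeff_mul_ne h
  obtain ⟨h1, h2⟩ := hf l k c hc
  refine ⟨h1, fun i hi => ?_⟩
  rw [← hbc, map_mul, ha b hb, one_mul]
  exact h2 i hi

theorem Ct.zsmul {f : Matrix X.ι Y.ι (ZM N)} (hf : Ct π U r X Y f) (c : ℤ) :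
    Ct π U r X Y (c • f) := by
  intro l k m h
  refine hf l k m fun h0 => h ?_
  rw [Matrix.smul_apply, MonoidAlgebra.coeff_smul, Finsupp.smul_apply, h0, smul_zero]

theorem fam_vecMul [SzAct Γ P] {f : Matrix X.ι Y.ι (ZM N)} (hf : Ct π U r X Y f) {B : Sz P}
    {q : ℤ} {x : X.ι → ZM N} (hx : x ∈ fam π U X B q) : x ᵥ* f ∈ fam π U Y B (q + r) := by
  intro k m h
  obtain ⟨j, a, b, ha, hb, hab⟩ := coeff_vecMul_ne h
  obtain ⟨h1, h2⟩ := hx j a ha
  obtain ⟨h3, h4⟩ := hf j k b hb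
  refine ⟨by rw [h3, h1], fun i hi => ?_⟩
  rw [← hab, map_mul, mul_smul]
  exact (h2 i hi).trans (SzAct.smul_le (h4 i hi))

theorem fam_vecMul' [SzAct Γ P] {f : Matrix X.ι Y.ι (ZM N)} (hf : Ct π U r X Y f) {B : Sz P}
    {q t : ℤ} {x : X.ι → ZM N} (hx : x ∈ fam π U X B q) (ht : q + r = t) :
    x ᵥ* f ∈ fam π U Y B t := ht ▸ fam_vecMul hf hx

theorem fam_mono {B : Sz P} {q : ℤ} (hU : U' ⊆ U) : fam π U X B q ≤ fam π U' X B q :=
  fun _ hx l m h => ⟨(hx l m h).1, fun i hi => (hx l m h).2 i (hU hi)⟩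

theorem fam_anti {B B' : Sz P} {q : ℤ} (h : ∀ i ∈ U, B i ≤ B' i) :
    fam π U X B' q ≤ fam π U X B q :=
  fun _ hx l m hm => ⟨(hx l m hm).1, fun i hi => (h i hi).trans ((hx l m hm).2 i hi)⟩

theorem fam_act [SzAct Γ P] {B : Sz P} {q : ℤ} {x : X.ι → ZM N} (hx : x ∈ fam π U X B q) (m : N) :
    (MonoidAlgebra.single m (1 : ℤ) : ZM N) • x ∈ fam π U X (π m • B) q := by
  intro l a h
  rw [Pi.smul_apply, smul_eq_mul] at h
  obtain ⟨b, c, hb, hc, hbc⟩ := coeff_mul_ne h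
  obtain ⟨h1, h2⟩ := hx l c hc
  refine ⟨h1, fun i hi => ?_⟩
  rw [← hbc, coeff_single_ne hb, map_mul, mul_smul]
  exact SzAct.smul_le (h2 i hi)

theorem single_mem_fam (l : X.ι) (m : N) (c : ℤ) :
    Pi.single l (MonoidAlgebra.single m c : ZM N) ∈ fam π U X (π m • X.sz l) (X.deg l) := by
  intro k a h
  by_cases hk : k = l
  · subst hk
    rw [Pi.single_eq_same] at h
    rw [coeff_single_ne h]
    exact ⟨rfl, fun i _ => le_refl _⟩
  · rw [Pi.single_eq_of_ne hk] at h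
    exact absurd rfl h

theorem basis_mem_fam (l : X.ι) : Pi.single l (1 : ZM N) ∈ fam π U X (X.sz l) (X.deg l) := by
  have h := single_mem_fam (π := π) (U := U) (X := X) l (1 : N) 1
  rwa [map_one, one_smul] at h

/-- A matrix is controlled if and only if the images of the basis vectors are controlled. -/
theorem ct_iff {f : Matrix X.ι Y.ι (ZM N)} :
    Ct π U r X Y f ↔ ∀ l, f l ∈ fam π U Y (X.sz l) (X.deg l + r) := Iff.rfl

end

/-! ## Chain maps and homotopies -/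

section

variable {Γ : Type} [Group Γ] {D : Type} {P : D → Type} [∀ i, PartialOrder (P i)]
  [∀ i, MulAction Γ (P i)] [SzAct Γ P] {N : Type} [Monoid N]
variable {π : N →* Γ} {U U' : Finset D} {X Y Z W : Co P N}

omit [SzAct Γ P] in
theorem IsCx.mono (h : IsCx π U X) (hU : U' ⊆ U) : IsCx π U' X := ⟨h.1.mono hU, h.2⟩

omit [SzAct Γ P] in
theorem Ch.mono {f : Matrix X.ι Y.ι (ZM N)} (h : Ch π U X Y f) (hU : U' ⊆ U) : Ch π U' X Y f :=
  ⟨h.1.mono hU, h.2⟩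

omit [SzAct Γ P] in
theorem Nul.mono {f : Matrix X.ι Y.ι (ZM N)} (h : Nul π U X Y f) (hU : U' ⊆ U) :
    Nul π U' X Y f := by
  obtain ⟨s, h1, h2⟩ := h
  exact ⟨s, h1.mono hU, h2⟩

omit [SzAct Γ P] in
theorem HI.mono {e : Matrix X.ι X.ι (ZM N)} (h : HI π U X e) (hU : U' ⊆ U) : HI π U' X e :=
  ⟨h.1.mono hU, h.2.mono hU⟩

omit [SzAct Γ P] in
theorem Iso.mono {e : Matrix X.ι X.ι (ZM N)} {e' : Matrix Y.ι Y.ι (ZM N)}
    (h : Iso π U X e Y e') (hU : U' ⊆ U) : Iso π U' X e Y e' := by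
  obtain ⟨u, v, h1, h2, h3, h4⟩ := h
  exact ⟨u, v, h1.mono hU, h2.mono hU, h3.mono hU, h4.mono hU⟩

omit [SzAct Γ P] in
theorem Ch.one : Ch π U X X 1 := ⟨Ct.one, by rw [Matrix.mul_one, Matrix.one_mul]⟩

omit [SzAct Γ P] in
theorem Ch.zero : Ch π U X Y 0 := ⟨Ct.zero, by rw [Matrix.mul_zero, Matrix.zero_mul]⟩

omit [SzAct Γ P] in
theorem Ch.add {f g : Matrix X.ι Y.ι (ZM N)} (hf : Ch π U X Y f) (hg : Ch π U X Y g) :
    Ch π U X Y (f + g) := ⟨hf.1.add hg.1, by rw [Matrix.mul_add, Matrix.add_mul, hf.2, hg.2]⟩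

omit [SzAct Γ P] in
theorem Ch.neg {f : Matrix X.ι Y.ι (ZM N)} (hf : Ch π U X Y f) : Ch π U X Y (-f) :=
  ⟨hf.1.neg, by rw [Matrix.mul_neg, Matrix.neg_mul, hf.2]⟩

omit [SzAct Γ P] in
theorem Ch.sub {f g : Matrix X.ι Y.ι (ZM N)} (hf : Ch π U X Y f) (hg : Ch π U X Y g) :
    Ch π U X Y (f - g) := by
  rw [sub_eq_add_neg]
  exact hf.add hg.neg

theorem Ch.mul {f : Matrix X.ι Y.ι (ZM N)} {g : Matrix Y.ι Z.ι (ZM N)} (hf : Ch π U X Y f)
    (hg : Ch π U Y Z g) : Ch π U X Z (f * g) :=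
  ⟨hf.1.mul' hg.1 (add_zero 0), by
    rw [← Matrix.mul_assoc, hf.2, Matrix.mul_assoc, hg.2, Matrix.mul_assoc]⟩

omit [SzAct Γ P] in
theorem Nul.zero : Nul π U X Y 0 := ⟨0, Ct.zero, by rw [Matrix.mul_zero, Matrix.zero_mul, add_zero]⟩

omit [SzAct Γ P] in
theorem Nul.add {f g : Matrix X.ι Y.ι (ZM N)} (hf : Nul π U X Y f) (hg : Nul π U X Y g) :
    Nul π U X Y (f + g) := by
  obtain ⟨s, hs, h1⟩ := hf
  obtain ⟨t, ht, h2⟩ := hg
  refine ⟨s + t, hs.add ht, ?_⟩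
  rw [h1, h2, Matrix.mul_add, Matrix.add_mul]
  abel

omit [SzAct Γ P] in
theorem Nul.neg {f : Matrix X.ι Y.ι (ZM N)} (hf : Nul π U X Y f) : Nul π U X Y (-f) := by
  obtain ⟨s, hs, h1⟩ := hf
  refine ⟨-s, hs.neg, ?_⟩
  rw [h1, Matrix.mul_neg, Matrix.neg_mul]
  abel

omit [SzAct Γ P] in
theorem Nul.sub {f g : Matrix X.ι Y.ι (ZM N)} (hf : Nul π U X Y f) (hg : Nul π U X Y g) :
    Nul π U X Y (f - g) := by
  rw [sub_eq_add_neg]
  exact hf.add hg.neg

/-- A null-homotopic map followed by a chain map. -/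
theorem Nul.mul_ch {f : Matrix X.ι Y.ι (ZM N)} {g : Matrix Y.ι Z.ι (ZM N)} (hf : Nul π U X Y f)
    (hg : Ch π U Y Z g) : Nul π U X Z (f * g) := by
  obtain ⟨s, hs, h1⟩ := hf
  refine ⟨s * g, hs.mul' hg.1 (add_zero 1), ?_⟩
  rw [h1, Matrix.add_mul, Matrix.mul_assoc, Matrix.mul_assoc, hg.2, Matrix.mul_assoc]

/-- A chain map followed by a null-homotopic map. -/
theorem Ch.mul_nul {f : Matrix X.ι Y.ι (ZM N)} {g : Matrix Y.ι Z.ι (ZM N)} (hf : Ch π U X Y f)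
    (hg : Nul π U Y Z g) : Nul π U X Z (f * g) := by
  obtain ⟨s, hs, h1⟩ := hg
  refine ⟨f * s, hf.1.mul' hs (zero_add 1), ?_⟩
  rw [h1, Matrix.mul_add, ← Matrix.mul_assoc, ← hf.2, Matrix.mul_assoc, Matrix.mul_assoc]

omit [SzAct Γ P] in
/-- `f` and `g` are homotopic. -/
theorem Nul.congr {f g : Matrix X.ι Y.ι (ZM N)} (hf : Nul π U X Y f) (h : Nul π U X Y (g - f)) :
    Nul π U X Y g := by
  have h1 := h.add hf
  rwa [sub_add_cancel] at h1

omit [SzAct Γ P] in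
theorem HI.one : HI π U X 1 := ⟨Ch.one, by rw [Matrix.mul_one, sub_self]; exact Nul.zero⟩

omit [SzAct Γ P] in
theorem Iso.symm {e : Matrix X.ι X.ι (ZM N)} {e' : Matrix Y.ι Y.ι (ZM N)}
    (h : Iso π U X e Y e') : Iso π U Y e' X e := by
  obtain ⟨u, v, h1, h2, h3, h4⟩ := h
  exact ⟨v, u, h2, h1, h4, h3⟩

theorem Iso.refl {e : Matrix X.ι X.ι (ZM N)} (h : HI π U X e) : Iso π U X e X e := by
  refine ⟨e, e, h.1, h.1, ?_, ?_⟩ <;>
  · have h1 := h.2.neg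
    rwa [neg_sub] at h1

theorem Iso.trans {e : Matrix X.ι X.ι (ZM N)} {e' : Matrix Y.ι Y.ι (ZM N)}
    {e'' : Matrix Z.ι Z.ι (ZM N)} (he : HI π U X e) (he'' : HI π U Z e'')
    (h : Iso π U X e Y e') (h' : Iso π U Y e' Z e'') : Iso π U X e Z e'' := by
  obtain ⟨u, v, hu, hv, h1, h2⟩ := h
  obtain ⟨u', v', hu', hv', h3, h4⟩ := h'
  have key : ∀ {A B : Co P N} {a : Matrix A.ι A.ι (ZM N)} {b : Matrix B.ι B.ι (ZM N)}
      {p : Matrix A.ι B.ι (ZM N)} {q : Matrix B.ι A.ι (ZM N)} {c : Matrix B.ι B.ι (ZM N)},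
      HI π U A a → Ch π U A B p → Ch π U B A q → Nul π U A A (p * q - a) →
      Nul π U B B (q * p - b) → Nul π U B B (c - b) → Nul π U A A (p * c * q - a) := by
    intro A B a b p q c ha hp hq h1 h2 h3
    -- `p c q ~ p b q ~ p q p q ~ a a ~ a`
    have e1 : Nul π U A A (p * (c - b) * q) := (hp.mul_nul h3).mul_ch hq
    have e2 : Nul π U A A (p * (q * p - b) * q) := (hp.mul_nul h2).mul_ch hq
    have e3 : Nul π U A A ((p * q - a) * (p * q)) := h1.mul_ch (hp.mul hq)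
    have e4 : Nul π U A A (a * (p * q - a)) := ha.1.mul_nul h1
    have e5 := ((((e1.sub e2).add e3).add e4).sub ha.2)
    have e6 : p * (c - b) * q - p * (q * p - b) * q + (p * q - a) * (p * q) + a * (p * q - a)
        - (a - a * a) = p * c * q - a := by
      simp only [Matrix.mul_sub, Matrix.sub_mul, Matrix.mul_assoc]
      abel
    rwa [e6] at e5
  refine ⟨u * u', v' * v, hu.mul hu', hv'.mul hv, ?_, ?_⟩
  · have h5 := key he hu hv h1 h2 h3
    have h6 : u * u' * (v' * v) = u * (u' * v') * v := by simp only [Matrix.mul_assoc]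
    rwa [h6]
  · have h5 := key he'' hv' hu' h4 h3 h2
    have h6 : v' * v * (u * u') = v' * (v * u) * u' := by simp only [Matrix.mul_assoc]
    rwa [h6]

/-- If `(X, e)` is isomorphic to `(Y, e')` and `e` is null-homotopic, then `e'` is. -/
theorem Iso.nul {e : Matrix X.ι X.ι (ZM N)} {e' : Matrix Y.ι Y.ι (ZM N)}
    (he' : HI π U Y e') (h : Iso π U X e Y e') (h0 : Nul π U X X e) : Nul π U Y Y e' := by
  obtain ⟨u, v, hu, hv, h1, h2⟩ := h
  -- `e' ~ e' e' ~ v u v u ~ v e u ~ 0`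
  have e1 : Nul π U Y Y (v * (u * v - e) * u) := (hv.mul_nul h1).mul_ch hu
  have e2 : Nul π U Y Y (v * e * u) := (hv.mul_nul h0).mul_ch hu
  have e3 : Nul π U Y Y ((v * u - e') * (v * u)) := h2.mul_ch (hv.mul hu)
  have e4 : Nul π U Y Y (e' * (v * u - e')) := he'.1.mul_nul h2
  have e5 := (((e1.add e2).sub e3).sub e4).add he'.2
  have e6 : v * (u * v - e) * u + v * e * u - (v * u - e') * (v * u) - e' * (v * u - e')
      + (e' - e' * e') = e' := by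
    simp only [Matrix.mul_sub, Matrix.sub_mul, Matrix.mul_assoc]
    abel
  rwa [e6] at e5

end

/-! ## Cones -/

section

variable {Γ : Type} [Group Γ] {D : Type} {P : D → Type} [∀ i, PartialOrder (P i)]
  [∀ i, MulAction Γ (P i)] {N : Type} [Monoid N]
variable {π : N →* Γ} {U U' : Finset D} {X Y Z W : Co P N}

/-- A matrix in blocks out of a cone into a cone. -/
theorem Ct.blocks {X' Y' : Co P N} {f : Matrix X.ι Y.ι (ZM N)} {f' : Matrix X'.ι Y'.ι (ZM N)}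
    {r : ℤ} {a : Matrix X.ι X'.ι (ZM N)} {b : Matrix X.ι Y'.ι (ZM N)}
    {c : Matrix Y.ι X'.ι (ZM N)} {d : Matrix Y.ι Y'.ι (ZM N)}
    (ha : Ct π U r X.toOb X'.toOb a) (hb : Ct π U (r + 1) X.toOb Y'.toOb b)
    (hc : Ct π U (r - 1) Y.toOb X'.toOb c) (hd : Ct π U r Y.toOb Y'.toOb d) :
    Ct π U r (cone X Y f).toOb (cone X' Y' f').toOb (Matrix.fromBlocks a b c d) := by
  rintro (l | l) (k | k) m h
  · obtain ⟨h1, h2⟩ := ha l k m h
    exact ⟨by change X'.deg k + 1 = X.deg l + 1 + r; omega, h2⟩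
  · obtain ⟨h1, h2⟩ := hb l k m h
    exact ⟨by change Y'.deg k = X.deg l + 1 + r; omega, h2⟩
  · obtain ⟨h1, h2⟩ := hc l k m h
    exact ⟨by change X'.deg k + 1 = Y.deg l + r; omega, h2⟩
  · exact hd l k m h

theorem IsCx.cone (hX : IsCx π U X) (hY : IsCx π U Y) {f : Matrix X.ι Y.ι (ZM N)}
    (hf : Ch π U X Y f) : IsCx π U (cone X Y f) := by
  refine ⟨Ct.blocks (f := f) (f' := f) hX.1.neg (by simpa using hf.1) Ct.zero hY.1, ?_⟩
  change Matrix.fromBlocks (-X.d) f 0 Y.d * Matrix.fromBlocks (-X.d) f 0 Y.d = 0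
  rw [Matrix.fromBlocks_multiply]
  simp only [neg_mul, mul_neg, neg_neg, mul_zero, zero_mul, add_zero, zero_add, Matrix.zero_mul,
    Matrix.mul_zero, Matrix.neg_mul, Matrix.mul_neg]
  rw [hX.2, hY.2, hf.2, neg_add_cancel]
  exact Matrix.fromBlocks_zero

end

end Pool.Agent.Lib.MP_551055_al.MT
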