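import Pool.Agent.Lib.MP_551055_al.LS.PStmts2

/-!
# Many trees: definitions

Finite complexes of free modules over a monoid ring `ℤ[N]` whose basis elements have a degree and a
size. The sizes are families `A = (A i)` indexed by the directions `i : D` (in the application:
finite subtrees `A i` of the tree `T i`). A matrix entry `m` from the basis element `l` to the basis
element `k` is controlled in the direction `i` if `A_l i ≤ π m • A_k i`.

Conventions: vectors are ROW vectors, `x ↦ x ᵥ* f`, so `f * g` is `f` followed by `g`.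
-/

set_option autoImplicit false

namespace Pool.Agent.Lib.MP_551055_al.MT

open Pool.Agent.Lib.MP_551055_al
open Pool.Agent.Lib.MP_551055_al.LS (FFF PolyZ TreeAct side ZN)
open Matrix

/-- The integral monoid ring. -/
abbrev ZM (N : Type) [Monoid N] : Type := MonoidAlgebra ℤ N

/-- Sizes. -/
abbrev Sz {D : Type} (P : D → Type) : Type := ∀ i, P i

/-- The action of the group on the sizes preserves the order, the sizes are directed. -/
class SzAct (Γ : Type) [Group Γ] {D : Type} (P : D → Type) [∀ i, PartialOrder (P i)]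
    [∀ i, MulAction Γ (P i)] : Prop where
  mono : ∀ (i : D) (γ : Γ) (a b : P i), a ≤ b → γ • a ≤ γ • b
  dir : ∀ (i : D) (a b : P i), ∃ c, a ≤ c ∧ b ≤ c
  ne : ∀ i : D, Nonempty (P i)

/-- There is an invariant strictly monotone rank, and every size has finitely many smaller sizes. -/
class SzRk (Γ : Type) [Group Γ] {D : Type} (P : D → Type) [∀ i, PartialOrder (P i)]
    [∀ i, MulAction Γ (P i)] : Prop where
  rk : ∃ rk : ∀ i, P i → ℕ, (∀ i (a b : P i), a < b → rk i a < rk i b) ∧
    ∀ i (γ : Γ) (a : P i), rk i (γ • a) = rk i a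
  fin : ∀ (i : D) (a : P i), {b | b ≤ a}.Finite

/-- Finite bases with degrees and sizes. -/
structure Ob {D : Type} (P : D → Type) where
  ι : Type
  ft : Fintype ι
  de : DecidableEq ι
  deg : ι → ℤ
  sz : ι → Sz P

attribute [instance] Ob.ft Ob.de

/-- Finite free complexes over `ℤ[N]` (the axioms are in `IsCx`). -/
structure Co {D : Type} (P : D → Type) (N : Type) [Monoid N] extends Ob P where
  d : Matrix ι ι (ZM N)

section

variable {Γ : Type} [Group Γ] {D : Type} {P : D → Type} [∀ i, PartialOrder (P i)]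
  [∀ i, MulAction Γ (P i)] {N : Type} [Monoid N]

/-- The matrix `f` has degree `r` and is controlled in all directions of `U`. -/
def Ct (π : N →* Γ) (U : Finset D) (r : ℤ) (X Y : Ob P) (f : Matrix X.ι Y.ι (ZM N)) : Prop :=
  ∀ (l : X.ι) (k : Y.ι) (m : N), (f l k).coeff m ≠ 0 →
    Y.deg k = X.deg l + r ∧ ∀ i ∈ U, X.sz l i ≤ π m • Y.sz k i

/-- `X` is a complex with control in `U`. -/
def IsCx (π : N →* Γ) (U : Finset D) (X : Co P N) : Prop :=
  Ct π U (-1) X.toOb X.toOb X.d ∧ X.d * X.d = 0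

/-- `f` is a chain map with control in `U`. -/
def Ch (π : N →* Γ) (U : Finset D) (X Y : Co P N) (f : Matrix X.ι Y.ι (ZM N)) : Prop :=
  Ct π U 0 X.toOb Y.toOb f ∧ X.d * f = f * Y.d

/-- `f` is null-homotopic with control in `U`. -/
def Nul (π : N →* Γ) (U : Finset D) (X Y : Co P N) (f : Matrix X.ι Y.ι (ZM N)) : Prop :=
  ∃ s : Matrix X.ι Y.ι (ZM N), Ct π U 1 X.toOb Y.toOb s ∧ f = X.d * s + s * Y.d

/-- `X` is contractible with control in `U`. -/
def Contr (π : N →* Γ) (U : Finset D) (X : Co P N) : Prop := Nul π U X X 1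

/-- `e` is a homotopy idempotent of `X` with control in `U`. -/
def HI (π : N →* Γ) (U : Finset D) (X : Co P N) (e : Matrix X.ι X.ι (ZM N)) : Prop :=
  Ch π U X X e ∧ Nul π U X X (e - e * e)

/-- `(X, e)` and `(Y, e')` are isomorphic in the idempotent completion of the homotopy category. -/
def Iso (π : N →* Γ) (U : Finset D) (X : Co P N) (e : Matrix X.ι X.ι (ZM N)) (Y : Co P N)
    (e' : Matrix Y.ι Y.ι (ZM N)) : Prop :=
  ∃ (u : Matrix X.ι Y.ι (ZM N)) (v : Matrix Y.ι X.ι (ZM N)), Ch π U X Y u ∧ Ch π U Y X v ∧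
    Nul π U X X (u * v - e) ∧ Nul π U Y Y (v * u - e')

/-- The cone of `f : X → Y`: `(x, y) ↦ (- x d, x f + y d)`. -/
noncomputable abbrev cone (X Y : Co P N) (f : Matrix X.ι Y.ι (ZM N)) : Co P N where
  ι := X.ι ⊕ Y.ι
  ft := inferInstance
  de := inferInstance
  deg := Sum.elim (fun l => X.deg l + 1) Y.deg
  sz := Sum.elim X.sz Y.sz
  d := Matrix.fromBlocks (-X.d) f 0 Y.d

/-- The same complex with other sizes. -/
abbrev Co.withSz (X : Co P N) (s : X.ι → Sz P) : Co P N where
  ι := X.ι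
  ft := X.ft
  de := X.de
  deg := X.deg
  sz := s
  d := X.d

/-- Change of the ring. -/
noncomputable abbrev Co.map {N' : Type} [Monoid N'] (X : Co P N) (φ : ZM N →+* ZM N') : Co P N' where
  ι := X.ι
  ft := X.ft
  de := X.de
  deg := X.deg
  sz := X.sz
  d := X.d.map φ

/-- The vectors of degree `q` all of whose terms `m e_l` have `B ≤ π m • sz l` in the directions
of `U`. -/
def fam (π : N →* Γ) (U : Finset D) (X : Ob P) (B : Sz P) (q : ℤ) : AddSubgroup (X.ι → ZM N) where
  carrier := {x | ∀ (l : X.ι) (m : N), (x l).coeff m ≠ 0 →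
    X.deg l = q ∧ ∀ i ∈ U, B i ≤ π m • X.sz l i}
  zero_mem' := fun _ _ h => absurd rfl h
  add_mem' {a b} ha hb := by
    intro l m h
    by_cases h1 : (a l).coeff m = 0
    · refine hb l m fun h2 => h ?_
      rw [Pi.add_apply, MonoidAlgebra.coeff_add, Finsupp.add_apply, h1, h2, add_zero]
    · exact ha l m h1
  neg_mem' {a} ha := by
    intro l m h
    refine ha l m fun h2 => h ?_
    rw [Pi.neg_apply, MonoidAlgebra.coeff_neg, Finsupp.neg_apply, h2, neg_zero]

theorem mem_fam {π : N →* Γ} {U : Finset D} {X : Ob P} {B : Sz P} {q : ℤ} {x : X.ι → ZM N} :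
    x ∈ fam π U X B q ↔ ∀ (l : X.ι) (m : N), (x l).coeff m ≠ 0 →
      X.deg l = q ∧ ∀ i ∈ U, B i ≤ π m • X.sz l i := Iff.rfl

end

/-! ## Polynomial and Laurent variables -/

/-- `G × ℕ`. -/
abbrev GN (G : Type) : Type := G × Multiplicative ℕ

/-- `G × ℤ`. -/
abbrev GZ (G : Type) : Type := G × Multiplicative ℤ

/-- The inclusion `ℕ → ℤ`. -/
def natInt : Multiplicative ℕ →* Multiplicative ℤ :=
  AddMonoidHom.toMultiplicative (Nat.castAddMonoidHom ℤ)

section

variable (G : Type) [Group G]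

/-- `G → G × ℕ`. -/
def hInc : G →* GN G := MonoidHom.inl G (Multiplicative ℕ)

/-- `G × ℕ → G × ℤ`. -/
def hLoc : GN G →* GZ G := MonoidHom.prodMap (MonoidHom.id G) natInt

/-- `ℤ[G] → ℤ[G × ℕ]`. -/
noncomputable def inc : ZM G →+* ZM (GN G) := MonoidAlgebra.mapDomainRingHom ℤ (hInc G)

/-- `ℤ[G × ℕ] → ℤ[G × ℤ]`. -/
noncomputable def loc : ZM (GN G) →+* ZM (GZ G) := MonoidAlgebra.mapDomainRingHom ℤ (hLoc G)

/-- The variable `z ^ a` in `ℤ[G × ℕ]`. -/
noncomputable def zN (a : ℕ) : ZM (GN G) := MonoidAlgebra.single (1, Multiplicative.ofAdd a) 1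

/-- The variable `z ^ a` in `ℤ[G × ℤ]`. -/
noncomputable def zZ (a : ℤ) : ZM (GZ G) := MonoidAlgebra.single (1, Multiplicative.ofAdd a) 1

variable {G} {Γ : Type} [Group Γ]

/-- The action of `G × ℕ` through `G`. -/
def pN (π : G →* Γ) : GN G →* Γ := π.comp (MonoidHom.fst G (Multiplicative ℕ))

/-- The action of `G × ℤ` through `G`. -/
def pZ (π : G →* Γ) : GZ G →* Γ := π.comp (MonoidHom.fst G (Multiplicative ℤ))

end

/-! ## Target complexes -/

/-- A complex of `ℤ[N]`-modules with a family of subgroups indexed by sizes and degrees. -/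
structure Tg {Γ : Type} [Group Γ] {D : Type} (P : D → Type) [∀ i, PartialOrder (P i)]
    [∀ i, MulAction Γ (P i)] {N : Type} [Monoid N] (π : N →* Γ) (U : Finset D) where
  V : Type
  ag : AddCommGroup V
  md : Module (ZM N) V
  fam : Sz P → ℤ → AddSubgroup V
  d : V →ₗ[ZM N] V
  anti : ∀ (B B' : Sz P) (q : ℤ), (∀ i ∈ U, B i ≤ B' i) → fam B' q ≤ fam B q
  act : ∀ (m : N) (B : Sz P) (q : ℤ), ∀ x ∈ fam B q,
    (MonoidAlgebra.single m (1 : ℤ) : ZM N) • x ∈ fam (π m • B) q
  d_mem : ∀ (B : Sz P) (q : ℤ), ∀ x ∈ fam B q, d x ∈ fam B (q - 1)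
  dd : ∀ x, d (d x) = 0

attribute [instance] Tg.ag Tg.md

end Pool.Agent.Lib.MP_551055_al.MT
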