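import Pool.Agent.Lib.MP_551055_al.MT.StA

/-!
# Many trees: module K1 (the telescope of `(W, e)` is isomorphic to `(W, e)` over `ℤ[G]`)
-/

set_option autoImplicit false

namespace Pool.Agent.Lib.MP_551055_al.MT

open Pool.Agent.Lib.MP_551055_al
open Matrix

namespace K1

/-! ## The rings -/

section

variable {G : Type} [Group G]

/-- Multiplication by the variable on the monoid `G × ℕ`. -/
def sh (p : GN G) : GN G := ((1 : G), Multiplicative.ofAdd 1) * p

theorem sh_injective : Function.Injective (sh (G := G)) := fun _ _ h => mul_left_cancel h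

theorem sh_fst (p : GN G) : (sh p).1 = p.1 := one_mul _

/-- Division by the variable. -/
noncomputable def sg : ZM (GN G) →+ ZM (GN G) where
  toFun x := MonoidAlgebra.ofCoeff (x.coeff.comapDomain sh sh_injective.injOn)
  map_zero' := by
    apply MonoidAlgebra.coeff_injective
    ext p
    rfl
  map_add' x y := by
    apply MonoidAlgebra.coeff_injective
    ext p
    rfl

theorem sg_coeff (x : ZM (GN G)) (p : GN G) : (sg x).coeff p = x.coeff (sh p) := rfl

/-- The constant coefficient. -/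
noncomputable def k0 : ZM (GN G) →+ ZM G where
  toFun x := MonoidAlgebra.ofCoeff (x.coeff.comapDomain (hInc G) hInc_injective.injOn)
  map_zero' := by
    apply MonoidAlgebra.coeff_injective
    ext p
    rfl
  map_add' x y := by
    apply MonoidAlgebra.coeff_injective
    ext p
    rfl

theorem k0_coeff (x : ZM (GN G)) (g : G) : (k0 x).coeff g = x.coeff (hInc G g) := rfl

theorem hInc_ne_sh (g : G) (p : GN G) : hInc G g ≠ sh p := by
  intro h
  have h1 : (1 : Multiplicative ℕ) = Multiplicative.ofAdd 1 * p.2 := congrArg Prod.snd h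
  have h2 : (0 : ℕ) = 1 + Multiplicative.toAdd p.2 := h1
  omega

theorem zN_comm (x : ZM (GN G)) : zN G 1 * x = x * zN G 1 := by
  refine MonoidAlgebra.single_commute (fun m => ?_) (fun r => ?_) x
  · change _ * _ = _ * _
    refine Prod.ext ?_ ?_
    · change (1 : G) * m.1 = m.1 * 1
      rw [one_mul, mul_one]
    · exact mul_comm _ _
  · exact mul_comm _ _

theorem zN_coeff (x : ZM (GN G)) (p : GN G) : (zN G 1 * x).coeff (sh p) = x.coeff p := by
  have h := MonoidAlgebra.coeff_single_mul_mul x (1 : ℤ) ((1 : G), Multiplicative.ofAdd 1) p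
  rw [one_mul] at h
  exact h

theorem zN_coeff_zero (x : ZM (GN G)) (g : G) : (zN G 1 * x).coeff (hInc G g) = 0 :=
  MonoidAlgebra.coeff_single_mul_of_forall_mul_ne _ _ fun d h => hInc_ne_sh g d h.symm

theorem sg_zN (x : ZM (GN G)) : sg (zN G 1 * x) = x := by
  apply MonoidAlgebra.coeff_injective
  ext p
  rw [sg_coeff, zN_coeff]

theorem k0_zN (x : ZM (GN G)) : k0 (zN G 1 * x) = 0 := by
  apply MonoidAlgebra.coeff_injective
  ext p
  rw [k0_coeff, zN_coeff_zero]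
  rfl

theorem inc_coeff (a : ZM G) (g : G) : (inc G a).coeff (hInc G g) = a.coeff g :=
  coeff_mdh_apply hInc_injective a g

theorem inc_coeff_sh (a : ZM G) (p : GN G) : (inc G a).coeff (sh p) = 0 := by
  by_contra h
  obtain ⟨g, hg, -⟩ := coeff_mdh_ne (h := hInc G) h
  exact hInc_ne_sh g p hg

theorem sg_inc (a : ZM G) : sg (inc G a) = 0 := by
  apply MonoidAlgebra.coeff_injective
  ext p
  rw [sg_coeff, inc_coeff_sh]
  rfl

theorem k0_inc (a : ZM G) : k0 (inc G a) = a := by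
  apply MonoidAlgebra.coeff_injective
  ext p
  rw [k0_coeff, inc_coeff]

theorem decomp (x : ZM (GN G)) : inc G (k0 x) + zN G 1 * sg x = x := by
  apply MonoidAlgebra.coeff_injective
  ext ⟨g, n⟩
  rw [MonoidAlgebra.coeff_add, Finsupp.add_apply]
  by_cases hn : n = 1
  · subst hn
    have h1 : ((g, 1) : GN G) = hInc G g := rfl
    rw [h1, inc_coeff, zN_coeff_zero, add_zero, k0_coeff]
  · have h1 : ∃ p, ((g, n) : GN G) = sh p := by
      refine ⟨(g, Multiplicative.ofAdd (Multiplicative.toAdd n - 1)), ?_⟩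
      refine Prod.ext ?_ ?_
      · change g = 1 * g
        rw [one_mul]
      · have h2 : Multiplicative.toAdd n ≠ 0 := hn
        change Multiplicative.toAdd n = 1 + (Multiplicative.toAdd n - 1)
        omega
    obtain ⟨p, hp⟩ := h1
    rw [hp, inc_coeff_sh, zN_coeff, zero_add, sg_coeff]

theorem sg_mul_inc (x : ZM (GN G)) (a : ZM G) : sg (x * inc G a) = sg x * inc G a := by
  conv_lhs => rw [← decomp x, add_mul, map_add, ← map_mul, sg_inc, zero_add, mul_assoc, sg_zN]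

theorem sg_inc_mul (x : ZM (GN G)) (a : ZM G) : sg (inc G a * x) = inc G a * sg x := by
  conv_lhs => rw [← decomp x, mul_add, map_add, ← map_mul, sg_inc, zero_add, ← mul_assoc,
    ← zN_comm, mul_assoc, sg_zN]

theorem k0_mul_inc (x : ZM (GN G)) (a : ZM G) : k0 (x * inc G a) = k0 x * a := by
  conv_lhs => rw [← decomp x, add_mul, map_add, ← map_mul, k0_inc, mul_assoc, k0_zN, add_zero]

theorem k0_inc_mul (x : ZM (GN G)) (a : ZM G) : k0 (inc G a * x) = a * k0 x := by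
  conv_lhs => rw [← decomp x, mul_add, map_add, ← map_mul, k0_inc, ← mul_assoc,
    ← zN_comm, mul_assoc, k0_zN, add_zero]

end

/-! ## Vectors -/

section

variable {G : Type} [Group G] {ι : Type} [Fintype ι]

/-- Division by the variable. -/
noncomputable def vS (ι : Type) : (ι → ZM (GN G)) →+ (ι → ZM (GN G)) := sg.compLeft ι

/-- The constant coefficient. -/
noncomputable def vK (ι : Type) : (ι → ZM (GN G)) →+ (ι → ZM G) := k0.compLeft ι

/-- The inclusion. -/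
noncomputable def vI (ι : Type) : (ι → ZM G) →+ (ι → ZM (GN G)) :=
  (inc G).toAddMonoidHom.compLeft ι

/-- Multiplication by the variable. -/
noncomputable def vZ (ι : Type) : (ι → ZM (GN G)) →+ (ι → ZM (GN G)) :=
  (AddMonoidHom.mulLeft (zN G 1)).compLeft ι

/-- The matrix `f` over `ℤ[G]`. -/
noncomputable def vR (f : Matrix ι ι (ZM G)) : (ι → ZM (GN G)) →+ (ι → ZM (GN G)) where
  toFun x := x ᵥ* f.map (inc G)
  map_zero' := Matrix.zero_vecMul _
  map_add' x y := Matrix.add_vecMul _ _ _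

theorem vS_apply (x : ι → ZM (GN G)) (l : ι) : vS ι x l = sg (x l) := rfl

theorem vK_apply (x : ι → ZM (GN G)) (l : ι) : vK ι x l = k0 (x l) := rfl

theorem vI_apply (x : ι → ZM G) (l : ι) : vI ι x l = inc G (x l) := rfl

theorem vZ_apply (x : ι → ZM (GN G)) (l : ι) : vZ ι x l = zN G 1 * x l := rfl

theorem vR_apply (f : Matrix ι ι (ZM G)) (x : ι → ZM (GN G)) : vR f x = x ᵥ* f.map (inc G) := rfl

theorem vR_apply' (f : Matrix ι ι (ZM G)) (x : ι → ZM (GN G)) (k : ι) :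
    vR f x k = ∑ l, x l * inc G (f l k) := rfl

theorem vR_mul (f g : Matrix ι ι (ZM G)) (x : ι → ZM (GN G)) : vR (f * g) x = vR g (vR f x) := by
  rw [vR_apply, vR_apply, vR_apply, Matrix.vecMul_vecMul, map_mul']

theorem vR_add (f g : Matrix ι ι (ZM G)) (x : ι → ZM (GN G)) :
    vR (f + g) x = vR f x + vR g x := by
  rw [vR_apply, vR_apply, vR_apply, ← Matrix.vecMul_add, map_add']

theorem vR_sub (f g : Matrix ι ι (ZM G)) (x : ι → ZM (GN G)) :
    vR (f - g) x = vR f x - vR g x := by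
  rw [vR_apply, vR_apply, vR_apply, ← Matrix.vecMul_sub, map_sub']

theorem vR_one [DecidableEq ι] (x : ι → ZM (GN G)) : vR 1 x = x := by
  rw [vR_apply, map_one', Matrix.vecMul_one]

theorem vR_zero (x : ι → ZM (GN G)) : vR (0 : Matrix ι ι (ZM G)) x = 0 := by
  rw [vR_apply, map_zero', Matrix.vecMul_zero]

theorem vS_vR (f : Matrix ι ι (ZM G)) (x : ι → ZM (GN G)) : vS ι (vR f x) = vR f (vS ι x) := by
  funext k
  rw [vS_apply, vR_apply', vR_apply', map_sum]
  exact Finset.sum_congr rfl fun l _ => sg_mul_inc _ _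

theorem vZ_vR (f : Matrix ι ι (ZM G)) (x : ι → ZM (GN G)) : vZ ι (vR f x) = vR f (vZ ι x) := by
  funext k
  rw [vZ_apply, vR_apply', vR_apply', Finset.mul_sum]
  exact Finset.sum_congr rfl fun l _ => (mul_assoc _ _ _).symm

theorem vK_vR (f : Matrix ι ι (ZM G)) (x : ι → ZM (GN G)) : vK ι (vR f x) = vK ι x ᵥ* f := by
  funext k
  rw [vK_apply, vR_apply', map_sum]
  exact Finset.sum_congr rfl fun l _ => k0_mul_inc _ _

theorem vI_vecMul (f : Matrix ι ι (ZM G)) (x : ι → ZM G) : vI ι (x ᵥ* f) = vR f (vI ι x) := by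
  funext k
  rw [vI_apply, vR_apply']
  change inc G (∑ l, x l * f l k) = _
  rw [map_sum]
  exact Finset.sum_congr rfl fun l _ => map_mul _ _ _

omit [Fintype ι] in
theorem vS_vZ (x : ι → ZM (GN G)) : vS ι (vZ ι x) = x := funext fun _ => sg_zN _

omit [Fintype ι] in
theorem vK_vZ (x : ι → ZM (GN G)) : vK ι (vZ ι x) = 0 := funext fun _ => k0_zN _

omit [Fintype ι] in
theorem vS_vI (x : ι → ZM G) : vS ι (vI ι x) = 0 := funext fun _ => sg_inc _

omit [Fintype ι] in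
theorem vK_vI (x : ι → ZM G) : vK ι (vI ι x) = x := funext fun _ => k0_inc _

omit [Fintype ι] in
theorem vZ_vS (x : ι → ZM (GN G)) : vZ ι (vS ι x) = x - vI ι (vK ι x) := by
  rw [eq_sub_iff_add_eq, add_comm]
  exact funext fun _ => decomp _

omit [Fintype ι] in
theorem vS_smul (a : ZM G) (x : ι → ZM (GN G)) : vS ι (inc G a • x) = inc G a • vS ι x :=
  funext fun _ => sg_inc_mul _ _

omit [Fintype ι] in
theorem vZ_smul (a : ZM G) (x : ι → ZM (GN G)) : vZ ι (inc G a • x) = inc G a • vZ ι x := by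
  funext l
  change zN G 1 * (inc G a * x l) = inc G a * (zN G 1 * x l)
  rw [← mul_assoc, zN_comm, mul_assoc]

omit [Fintype ι] in
theorem vK_smul (a : ZM G) (x : ι → ZM (GN G)) : vK ι (inc G a • x) = a • vK ι x :=
  funext fun _ => k0_inc_mul _ _

omit [Fintype ι] in
theorem vI_smul (a : ZM G) (x : ι → ZM G) : vI ι (a • x) = inc G a • vI ι x :=
  funext fun l => map_mul (inc G) a (x l)

theorem vR_smul (a : ZM G) (f : Matrix ι ι (ZM G)) (x : ι → ZM (GN G)) :
    vR f (inc G a • x) = inc G a • vR f x := Matrix.smul_vecMul _ _ _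

end

/-! ## The identities -/

section

variable {G : Type} [Group G] {ι : Type} [Fintype ι]

/-- The relations between `d`, `e`, `h` as operators on vectors over `ℤ[G × ℕ]`. -/
structure Rel (d e h : Matrix ι ι (ZM G)) : Prop where
  dd : ∀ x : ι → ZM (GN G), vR d (vR d x) = 0
  de : ∀ x : ι → ZM (GN G), vR e (vR d x) = vR d (vR e x)
  hd : ∀ x : ι → ZM (GN G), vR h (vR d x) = vR e x - vR e (vR e x) - vR d (vR h x)

theorem rel_of {d e h : Matrix ι ι (ZM G)} (h1 : d * d = 0) (h2 : d * e = e * d)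
    (h3 : e - e * e = d * h + h * d) : Rel d e h where
  dd x := by rw [← vR_mul, h1, vR_zero]
  de x := by rw [← vR_mul, ← vR_mul, h2]
  hd x := by
    have h4 := congrArg (fun m => vR m x) h3
    simp only [vR_sub, vR_add, vR_mul] at h4
    rw [h4, add_sub_cancel_right]

/-- `z x + σ x - 2 x`. -/
noncomputable def ta (x : ι → ZM (GN G)) : ι → ZM (GN G) := vZ ι x + vS ι x - x - x

/-- `x (1 - e) + σ(x) e`. -/
noncomputable def be (e : Matrix ι ι (ZM G)) (x : ι → ZM (GN G)) : ι → ZM (GN G) :=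
  x - vR e x + vR e (vS ι x)

/-- `x (1 - e) + z x e`. -/
noncomputable def al' (e : Matrix ι ι (ZM G)) (x : ι → ZM (GN G)) : ι → ZM (GN G) :=
  x - vR e x + vR e (vZ ι x)

/-- `x (e h - h e)`. -/
noncomputable def cc (e h : Matrix ι ι (ZM G)) (x : ι → ZM (GN G)) : ι → ZM (GN G) :=
  vR h (vR e x) - vR e (vR h x)

/-- `(z - 1) τ(y) c`. -/
noncomputable def nu (e h : Matrix ι ι (ZM G)) (y : ι → ZM (GN G)) : ι → ZM (GN G) :=
  vZ ι (cc e h (ta y)) - cc e h (ta y)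

/-- The first component of `Ξ`. -/
noncomputable def X1 (e h : Matrix ι ι (ZM G)) (y x : ι → ZM (GN G)) : ι → ZM (GN G) :=
  be e x + vR h (ta y)

/-- The second component of `Ξ`. -/
noncomputable def X2 (h : Matrix ι ι (ZM G)) (x : ι → ZM (GN G)) : ι → ZM (GN G) :=
  -(vR h (vI ι (vK ι x) + ta x))

variable {d e h : Matrix ι ι (ZM G)}

theorem idA1 (R : Rel d e h) (y x : ι → ZM (GN G)) :
    -(vR d (X1 e h y x)) + X1 e h (-(vR d y)) (al' e y + vR d x) = y := by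
  simp only [X1, be, ta, al', map_add, map_sub, map_neg, vS_vR, vZ_vR, vS_vZ, R.dd, R.de, R.hd]
  abel

theorem idA2 (R : Rel d e h) (y x : ι → ZM (GN G)) :
    al' e (X1 e h y x) + vR d (X2 h x) + X2 h (al' e y + vR d x)
      = x - vR e (vI ι (vK ι x)) - vR h (vI ι (vK ι y)) - nu e h y := by
  simp only [X1, X2, be, ta, al', nu, cc, map_add, map_sub, map_neg, vS_vR, vZ_vR, vS_vZ, vK_vR,
    vI_vecMul, vZ_vS, vK_vZ, map_zero, R.dd, R.de, R.hd]
  abel

theorem idNu (R : Rel d e h) (y : ι → ZM (GN G)) :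
    nu e h (-(vR d y)) = vR d (nu e h y) := by
  simp only [ta, nu, cc, map_add, map_sub, map_neg, vS_vR, vZ_vR, vS_vZ, vK_vR,
    vI_vecMul, vZ_vS, vK_vZ, map_zero, R.dd, R.de, R.hd]
  abel

theorem idV (R : Rel d e h) (y x : ι → ZM (GN G)) :
    vR e (vI ι (vK ι (al' e y + vR d x))) + vR h (vI ι (vK ι (-(vR d y))))
      = vR d (vR e (vI ι (vK ι x)) + vR h (vI ι (vK ι y))) := by
  simp only [al', map_add, map_sub, map_neg, vS_vR, vZ_vR, vS_vZ, vK_vR,
    vI_vecMul, vZ_vS, vK_vZ, map_zero, R.dd, R.de, R.hd]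
  abel

end

/-! ## Additivity and linearity -/

section

variable {G : Type} [Group G] {ι : Type} [Fintype ι] (d e h : Matrix ι ι (ZM G))

omit [Fintype ι] in
theorem ta_add (x y : ι → ZM (GN G)) : ta (x + y) = ta x + ta y := by
  simp only [ta, map_add]
  abel

theorem be_add (x y : ι → ZM (GN G)) : be e (x + y) = be e x + be e y := by
  simp only [be, map_add]
  abel

theorem cc_add (x y : ι → ZM (GN G)) : cc e h (x + y) = cc e h x + cc e h y := by
  simp only [cc, map_add]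
  abel

theorem nu_add (x y : ι → ZM (GN G)) : nu e h (x + y) = nu e h x + nu e h y := by
  simp only [nu, ta_add, cc_add, map_add]
  abel

theorem X1_add (y y' x x' : ι → ZM (GN G)) :
    X1 e h (y + y') (x + x') = X1 e h y x + X1 e h y' x' := by
  simp only [X1, be_add, ta_add, map_add]
  abel

theorem X2_add (x x' : ι → ZM (GN G)) : X2 h (x + x') = X2 h x + X2 h x' := by
  simp only [X2, ta_add, map_add]
  abel

omit [Fintype ι] in
theorem ta_smul (a : ZM G) (x : ι → ZM (GN G)) : ta (inc G a • x) = inc G a • ta x := by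
  simp only [ta, vZ_smul, vS_smul, smul_sub, smul_add]

theorem be_smul (a : ZM G) (x : ι → ZM (GN G)) : be e (inc G a • x) = inc G a • be e x := by
  simp only [be, vS_smul, vR_smul, smul_sub, smul_add]

theorem cc_smul (a : ZM G) (x : ι → ZM (GN G)) :
    cc e h (inc G a • x) = inc G a • cc e h x := by
  simp only [cc, vR_smul, smul_sub]

theorem nu_smul (a : ZM G) (x : ι → ZM (GN G)) :
    nu e h (inc G a • x) = inc G a • nu e h x := by
  simp only [nu, ta_smul, cc_smul, vZ_smul, smul_sub]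

theorem X1_smul (a : ZM G) (y x : ι → ZM (GN G)) :
    X1 e h (inc G a • y) (inc G a • x) = inc G a • X1 e h y x := by
  simp only [X1, be_smul, ta_smul, vR_smul, smul_add]

theorem X2_smul (a : ZM G) (x : ι → ZM (GN G)) : X2 h (inc G a • x) = inc G a • X2 h x := by
  simp only [X2, ta_smul, vK_smul, vI_smul, ← smul_add, vR_smul, smul_neg]

/-! ## The maps -/

/-- The map `v'` on the telescope. -/
noncomputable def vv (w : ι ⊕ ι → ZM (GN G)) : ι → ZM G :=
  vK ι (w ∘ Sum.inr + nu e h (w ∘ Sum.inl)) ᵥ* e + vK ι (w ∘ Sum.inl) ᵥ* h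

/-- The homotopy on the telescope. -/
noncomputable def rr (w : ι ⊕ ι → ZM (GN G)) : ι ⊕ ι → ZM (GN G) :=
  Sum.elim (-(X1 e h (w ∘ Sum.inl) (w ∘ Sum.inr + nu e h (w ∘ Sum.inl))))
    (-(X2 h (w ∘ Sum.inr + nu e h (w ∘ Sum.inl))))

/-- The differential of the telescope. -/
noncomputable def dT (w : ι ⊕ ι → ZM (GN G)) : ι ⊕ ι → ZM (GN G) :=
  Sum.elim (-(vR d (w ∘ Sum.inl))) (al' e (w ∘ Sum.inl) + vR d (w ∘ Sum.inr))

theorem vI_vv (w : ι ⊕ ι → ZM (GN G)) :
    vI ι (vv e h w) = vR e (vI ι (vK ι (w ∘ Sum.inr + nu e h (w ∘ Sum.inl))))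
      + vR h (vI ι (vK ι (w ∘ Sum.inl))) := by
  rw [vv, map_add, vI_vecMul, vI_vecMul]

omit [Fintype ι] in
theorem vI_injective {x y : ι → ZM G} (hxy : vI ι x = vI ι y) : x = y := by
  rw [← vK_vI x, hxy, vK_vI]

variable {d e h}

theorem vv_dT (R : Rel d e h) (w : ι ⊕ ι → ZM (GN G)) :
    vv e h (dT d e w) = vv e h w ᵥ* d := by
  apply vI_injective
  rw [vI_vv, vI_vecMul, vI_vv, ← idV R]
  have h1 : dT d e w ∘ Sum.inl = -(vR d (w ∘ Sum.inl)) := rfl
  have h2 : dT d e w ∘ Sum.inr = al' e (w ∘ Sum.inl) + vR d (w ∘ Sum.inr) := rfl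
  rw [h1, h2, idNu R, map_add (vR d), add_assoc]

theorem key (R : Rel d e h) (w : ι ⊕ ι → ZM (GN G)) :
    (Sum.elim (0 : ι → ZM (GN G)) (vI ι (vv e h w)) : ι ⊕ ι → ZM (GN G))
      = w + dT d e (rr e h w) + rr e h (dT d e w) := by
  have h1 : dT d e w ∘ Sum.inl = -(vR d (w ∘ Sum.inl)) := rfl
  have h2 : dT d e w ∘ Sum.inr = al' e (w ∘ Sum.inl) + vR d (w ∘ Sum.inr) := rfl
  have h3 : rr e h w ∘ Sum.inl = -(X1 e h (w ∘ Sum.inl) (w ∘ Sum.inr + nu e h (w ∘ Sum.inl))) :=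
    rfl
  have h4 : rr e h w ∘ Sum.inr = -(X2 h (w ∘ Sum.inr + nu e h (w ∘ Sum.inl))) := rfl
  have h5 : dT d e w ∘ Sum.inr + nu e h (dT d e w ∘ Sum.inl)
      = al' e (w ∘ Sum.inl) + vR d (w ∘ Sum.inr + nu e h (w ∘ Sum.inl)) := by
    rw [h1, h2, idNu R, map_add (vR d), add_assoc]
  have e1 := idA1 R (w ∘ Sum.inl) (w ∘ Sum.inr + nu e h (w ∘ Sum.inl))
  have e2 := idA2 R (w ∘ Sum.inl) (w ∘ Sum.inr + nu e h (w ∘ Sum.inl))
  have h6 : ∀ x : ι → ZM (GN G), al' e (-x) = -(al' e x) := by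
    intro x
    simp only [al', map_neg]
    abel
  have h7 : w = Sum.elim (w ∘ Sum.inl) (w ∘ Sum.inr) := (Sum.elim_comp_inl_inr w).symm
  have h8 : w + dT d e (rr e h w) + rr e h (dT d e w)
      = Sum.elim (w ∘ Sum.inl + -(vR d (rr e h w ∘ Sum.inl))
          + -(X1 e h (dT d e w ∘ Sum.inl) (dT d e w ∘ Sum.inr + nu e h (dT d e w ∘ Sum.inl))))
        (w ∘ Sum.inr + (al' e (rr e h w ∘ Sum.inl) + vR d (rr e h w ∘ Sum.inr))
          + -(X2 h (dT d e w ∘ Sum.inr + nu e h (dT d e w ∘ Sum.inl)))) := by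
    funext k
    cases k <;> rfl
  rw [h8, h5, h1, h3, h4, vI_vv]
  congr 1
  · rw [map_neg, neg_neg, eq_sub_of_add_eq' e1]
    abel
  · rw [h6, map_neg, eq_sub_of_add_eq' e2]
    abel

end

/-! ## Control -/

section

variable {Γ : Type} [Group Γ] {D : Type} {P : D → Type} [∀ i, PartialOrder (P i)]
  [∀ i, MulAction Γ (P i)] {G : Type} [Group G] {π : G →* Γ} {V : Finset D}

theorem pN_sh (p : GN G) : pN π (sh p) = pN π p := by
  change π (sh p).1 = π p.1
  rw [sh_fst]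

theorem fam_vS {X : Ob P} {B : Sz P} {q : ℤ} {x : X.ι → ZM (GN G)}
    (hx : x ∈ fam (pN π) V X B q) : vS X.ι x ∈ fam (pN π) V X B q := by
  intro l m hm
  have h1 := hx l (sh m) hm
  rwa [pN_sh] at h1

theorem fam_vZ {X : Ob P} {B : Sz P} {q : ℤ} {x : X.ι → ZM (GN G)}
    (hx : x ∈ fam (pN π) V X B q) : vZ X.ι x ∈ fam (pN π) V X B q := by
  intro l m hm
  obtain ⟨a, b, ha, hb, rfl⟩ := coeff_mul_ne (x := zN G 1) (y := x l) hm
  rw [coeff_single_ne ha]
  have h1 := hx l b hb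
  have h2 : pN π (((1 : G), Multiplicative.ofAdd 1) * b) = pN π b := pN_sh b
  rwa [h2]

theorem fam_vK {X : Ob P} {B : Sz P} {q : ℤ} {x : X.ι → ZM (GN G)}
    (hx : x ∈ fam (pN π) V X B q) : vK X.ι x ∈ fam π V X B q :=
  fun l m hm => hx l (hInc G m) hm

theorem fam_vI {X : Ob P} {B : Sz P} {q : ℤ} {x : X.ι → ZM G}
    (hx : x ∈ fam π V X B q) : vI X.ι x ∈ fam (pN π) V X B q := by
  intro l m hm
  obtain ⟨g, rfl, hg⟩ := coeff_mdh_ne (h := hInc G) hm
  exact hx l g hg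

theorem fam_vR [SzAct Γ P] {X : Ob P} {f : Matrix X.ι X.ι (ZM G)} {r : ℤ}
    (hf : Ct π V r X X f) {B : Sz P} {q t : ℤ} {x : X.ι → ZM (GN G)}
    (hx : x ∈ fam (pN π) V X B q) (ht : q + r = t) : vR f x ∈ fam (pN π) V X B t :=
  fam_vecMul' (hf.map (π' := pN π) (h := hInc G) (pN_hInc π)) hx ht

theorem fam_ta {X : Ob P} {B : Sz P} {q : ℤ} {x : X.ι → ZM (GN G)}
    (hx : x ∈ fam (pN π) V X B q) : ta x ∈ fam (pN π) V X B q :=
  AddSubgroup.sub_mem _ (AddSubgroup.sub_mem _ (AddSubgroup.add_mem _ (fam_vZ hx) (fam_vS hx)) hx)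
    hx

section

variable [SzAct Γ P] {X : Ob P} {e h : Matrix X.ι X.ι (ZM G)} (he : Ct π V 0 X X e)
  (hh : Ct π V 1 X X h)

include he in
theorem fam_be {B : Sz P} {q : ℤ} {x : X.ι → ZM (GN G)}
    (hx : x ∈ fam (pN π) V X B q) : be e x ∈ fam (pN π) V X B q :=
  AddSubgroup.add_mem _ (AddSubgroup.sub_mem _ hx (fam_vR he hx (add_zero q)))
    (fam_vR he (fam_vS hx) (add_zero q))

include he hh in
theorem fam_cc {B : Sz P} {q t : ℤ} {x : X.ι → ZM (GN G)}
    (hx : x ∈ fam (pN π) V X B q) (ht : q + 1 = t) : cc e h x ∈ fam (pN π) V X B t :=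
  AddSubgroup.sub_mem _ (fam_vR hh (fam_vR he hx (add_zero q)) ht)
    (fam_vR he (fam_vR hh hx ht) (add_zero t))

include he hh in
theorem fam_nu {B : Sz P} {q t : ℤ} {x : X.ι → ZM (GN G)}
    (hx : x ∈ fam (pN π) V X B q) (ht : q + 1 = t) : nu e h x ∈ fam (pN π) V X B t :=
  AddSubgroup.sub_mem _ (fam_vZ (fam_cc he hh (fam_ta hx) ht)) (fam_cc he hh (fam_ta hx) ht)

include he hh in
theorem fam_X1 {B : Sz P} {q t : ℤ} {y x : X.ι → ZM (GN G)}
    (hy : y ∈ fam (pN π) V X B q) (hx : x ∈ fam (pN π) V X B t) (ht : q + 1 = t) :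
    X1 e h y x ∈ fam (pN π) V X B t :=
  AddSubgroup.add_mem _ (fam_be he hx) (fam_vR hh (fam_ta hy) ht)

include hh in
theorem fam_X2 {B : Sz P} {q t : ℤ} {x : X.ι → ZM (GN G)}
    (hx : x ∈ fam (pN π) V X B q) (ht : q + 1 = t) : X2 h x ∈ fam (pN π) V X B t :=
  AddSubgroup.neg_mem _ (fam_vR hh (AddSubgroup.add_mem _ (fam_vI (fam_vK hx)) (fam_ta hx)) ht)

end

theorem mem_tel {W : Co P G} {sz' : W.ι → Sz P} {e : Matrix W.ι W.ι (ZM G)}
    (hsz : ∀ l, ∀ i ∈ V, sz' l i = W.sz l i) {B : Sz P} {q : ℤ}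
    {w : W.ι ⊕ W.ι → ZM (GN G)} :
    w ∈ fam (pN π) V (tel W sz' e).toOb B q ↔
      w ∘ Sum.inl ∈ fam (pN π) V W.toOb B (q - 1) ∧ w ∘ Sum.inr ∈ fam (pN π) V W.toOb B q := by
  constructor
  · intro hw
    refine ⟨fun l m hm => ?_, fun l m hm => ?_⟩
    · obtain ⟨h1, h2⟩ := hw (Sum.inl l) m hm
      exact ⟨eq_sub_of_add_eq h1, h2⟩
    · obtain ⟨h1, h2⟩ := hw (Sum.inr l) m hm
      refine ⟨h1, fun i hi => ?_⟩
      rw [← hsz l i hi]
      exact h2 i hi
  · rintro ⟨hy, hx⟩ (l | l) m hm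
    · obtain ⟨h1, h2⟩ := hy l m hm
      exact ⟨add_eq_of_eq_sub h1, h2⟩
    · obtain ⟨h1, h2⟩ := hx l m hm
      refine ⟨h1, fun i hi => ?_⟩
      change B i ≤ pN π m • sz' l i
      rw [hsz l i hi]
      exact h2 i hi

theorem vecMul_al {ι : Type} [Fintype ι] [DecidableEq ι] (e : Matrix ι ι (ZM G))
    (y : ι → ZM (GN G)) : y ᵥ* al e = al' e y := by
  have h1 : y ᵥ* (zN G 1 • e.map (inc G)) = vZ ι (vR e y) := by
    funext k
    change ∑ l, y l * (zN G 1 * inc G (e l k)) = zN G 1 * ∑ l, y l * inc G (e l k)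
    rw [Finset.mul_sum]
    refine Finset.sum_congr rfl fun l _ => ?_
    rw [← mul_assoc, ← zN_comm, mul_assoc]
  rw [al, Matrix.vecMul_add, h1, map_sub', Matrix.vecMul_sub, map_one', Matrix.vecMul_one,
    vZ_vR]
  rfl

theorem vecMul_tel (W : Co P G) (sz' : W.ι → Sz P) (e : Matrix W.ι W.ι (ZM G))
    (w : W.ι ⊕ W.ι → ZM (GN G)) : w ᵥ* (tel W sz' e).d = dT W.d e w := by
  refine (Matrix.vecMul_fromBlocks (-(W.d.map (inc G))) (al e) 0 (W.d.map (inc G)) w).trans ?_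
  rw [Matrix.vecMul_neg, Matrix.vecMul_zero, add_zero, vecMul_al]
  rfl

end

section

variable {G : Type} [Group G] {ι : Type} [Fintype ι] (e h : Matrix ι ι (ZM G))

/-- The map `u`. -/
noncomputable def uu (x : ι → ZM G) : ι ⊕ ι → ZM (GN G) :=
  Sum.elim (0 : ι → ZM (GN G)) (vI ι x)

omit [Fintype ι] in
theorem uu_add (x y : ι → ZM G) : uu (x + y) = uu x + uu y := by
  funext k
  cases k with
  | inl k => exact (add_zero (0 : ZM (GN G))).symm
  | inr k => exact congrFun (map_add (vI ι) x y) k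

omit [Fintype ι] in
theorem uu_smul (a : ZM G) (x : ι → ZM G) : uu (a • x) = inc G a • uu x := by
  funext k
  cases k with
  | inl k => exact (mul_zero (inc G a)).symm
  | inr k => exact congrFun (vI_smul a x) k

theorem vv_add (w w' : ι ⊕ ι → ZM (GN G)) : vv e h (w + w') = vv e h w + vv e h w' := by
  have h1 : (w + w') ∘ Sum.inl = w ∘ Sum.inl + w' ∘ Sum.inl := rfl
  have h2 : (w + w') ∘ Sum.inr = w ∘ Sum.inr + w' ∘ Sum.inr := rfl
  simp only [vv, h1, h2, nu_add, map_add, Matrix.add_vecMul]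
  abel

theorem vv_smul (a : ZM G) (w : ι ⊕ ι → ZM (GN G)) :
    vv e h (inc G a • w) = a • vv e h w := by
  have h1 : (inc G a • w) ∘ Sum.inl = inc G a • (w ∘ Sum.inl) := rfl
  have h2 : (inc G a • w) ∘ Sum.inr = inc G a • (w ∘ Sum.inr) := rfl
  simp only [vv, h1, h2, nu_smul, ← smul_add, vK_smul, Matrix.smul_vecMul]

theorem rr_add (w w' : ι ⊕ ι → ZM (GN G)) : rr e h (w + w') = rr e h w + rr e h w' := by
  have h1 : (w + w') ∘ Sum.inl = w ∘ Sum.inl + w' ∘ Sum.inl := rfl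
  have h2 : (w + w') ∘ Sum.inr = w ∘ Sum.inr + w' ∘ Sum.inr := rfl
  rw [rr, h1, h2, nu_add, add_add_add_comm, X1_add, X2_add, neg_add, neg_add]
  funext k
  cases k <;> rfl

theorem rr_smul (a : ZM G) (w : ι ⊕ ι → ZM (GN G)) :
    rr e h (inc G a • w) = inc G a • rr e h w := by
  have h1 : (inc G a • w) ∘ Sum.inl = inc G a • (w ∘ Sum.inl) := rfl
  have h2 : (inc G a • w) ∘ Sum.inr = inc G a • (w ∘ Sum.inr) := rfl
  rw [rr, h1, h2, nu_smul, ← smul_add, X1_smul, X2_smul, ← smul_neg, ← smul_neg]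
  funext k
  cases k <;> rfl

theorem uu_vecMul (d : Matrix ι ι (ZM G)) (x : ι → ZM G) :
    uu (x ᵥ* d) = dT d e (uu x) := by
  have h1 : (uu x) ∘ Sum.inl = 0 := rfl
  have h2 : (uu x) ∘ Sum.inr = vI ι x := rfl
  rw [dT, h1, h2, uu, vI_vecMul]
  simp only [al', map_zero, neg_zero, sub_zero, add_zero, zero_add]

theorem vv_uu (x : ι → ZM G) : vv e h (uu x) = x ᵥ* e := by
  have h1 : (uu x) ∘ Sum.inl = 0 := rfl
  have h2 : (uu x) ∘ Sum.inr = vI ι x := rfl
  rw [vv, h1, h2]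
  simp only [nu, cc, ta, map_zero, sub_zero, add_zero, vK_vI, Matrix.zero_vecMul]

end

section

variable {Γ : Type} [Group Γ] {D : Type} {P : D → Type} [∀ i, PartialOrder (P i)]
  [∀ i, MulAction Γ (P i)] {G : Type} [Group G] {π : G →* Γ} {V : Finset D}

/-- The criterion for `IsoL`. -/
theorem isoL_of [SzAct Γ P] (X : Co P (GN G)) (hX : IsCx (pN π) V X) (W : Co P G)
    (e : Matrix W.ι W.ι (ZM G)) (u : (W.ι → ZM G) → (X.ι → ZM (GN G)))
    (v : (X.ι → ZM (GN G)) → (W.ι → ZM G)) (r : (X.ι → ZM (GN G)) → (X.ι → ZM (GN G)))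
    (u1 : ∀ x y, u (x + y) = u x + u y) (u2 : ∀ (a : ZM G) x, u (a • x) = inc G a • u x)
    (v1 : ∀ x y, v (x + y) = v x + v y) (v2 : ∀ (a : ZM G) x, v (inc G a • x) = a • v x)
    (r1 : ∀ x y, r (x + y) = r x + r y) (r2 : ∀ (a : ZM G) x, r (inc G a • x) = inc G a • r x)
    (f1 : ∀ B q, ∀ x ∈ fam π V W.toOb B q, u x ∈ fam (pN π) V X.toOb B q)
    (f2 : ∀ B q, ∀ x ∈ fam (pN π) V X.toOb B q, v x ∈ fam π V W.toOb B q)
    (f3 : ∀ B q, ∀ x ∈ fam (pN π) V X.toOb B q, r x ∈ fam (pN π) V X.toOb B (q + 1))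
    (g1 : ∀ x, u (x ᵥ* W.d) = u x ᵥ* X.d) (g2 : ∀ x, v (x ᵥ* X.d) = v x ᵥ* W.d)
    (g3 : ∀ x, v (u x) = x ᵥ* e) (g4 : ∀ x, u (v x) = x + r x ᵥ* X.d + r (x ᵥ* X.d)) :
    IsoL ((Tg.ofCo X hX).res (π := π) (hInc G) (pN_hInc π)) W e := by
  refine ⟨⟨⟨u, u1⟩, u2⟩, ⟨⟨v, v1⟩, v2⟩, ⟨⟨r, r1⟩, r2⟩, 0, f1, f2, f3, Ct.zero, g1, g2, ?_, g4⟩
  intro x
  rw [Matrix.mul_zero, Matrix.zero_mul, add_zero, add_zero]
  exact g3 x

end

end K1

open K1 in
/-- Module K1. -/
theorem stK1 : StK1 := by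
  intro Γ _ D P _ _ _ G _ π V W sz' e hW hsz he hT
  obtain ⟨⟨hec, hed⟩, ⟨h, hhc, hh⟩⟩ := he
  have R : Rel W.d e h := rel_of hW.2 hed hh
  refine isoL_of (tel W sz' e) hT W e uu (vv e h) (rr e h) uu_add uu_smul (vv_add e h)
    (vv_smul e h) (rr_add e h) (rr_smul e h) ?_ ?_ ?_ ?_ ?_ (vv_uu e h) ?_
  · intro B q x hx
    exact (mem_tel (e := e) (sz' := sz') hsz).2 ⟨AddSubgroup.zero_mem _, fam_vI hx⟩
  · intro B q w hw
    obtain ⟨h1, h2⟩ := (mem_tel (e := e) (sz' := sz') hsz).1 hw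
    have h3 := AddSubgroup.add_mem _ h2 (fam_nu hec hhc h1 (sub_add_cancel q 1))
    exact AddSubgroup.add_mem _ (fam_vecMul' hec (fam_vK h3) (add_zero q))
      (fam_vecMul' hhc (fam_vK h1) (sub_add_cancel q 1))
  · intro B q w hw
    obtain ⟨h1, h2⟩ := (mem_tel (e := e) (sz' := sz') hsz).1 hw
    have h3 := AddSubgroup.add_mem _ h2 (fam_nu hec hhc h1 (sub_add_cancel q 1))
    refine (mem_tel (e := e) (sz' := sz') hsz).2 ⟨?_, ?_⟩
    · rw [add_sub_cancel_right]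
      exact AddSubgroup.neg_mem _ (fam_X1 hec hhc h1 h3 (sub_add_cancel q 1))
    · exact AddSubgroup.neg_mem _ (fam_X2 hhc h3 rfl)
  · intro x
    exact (uu_vecMul e W.d x).trans (vecMul_tel W sz' e (uu x)).symm
  · intro w
    have h1 := vecMul_tel W sz' e w
    exact (congrArg (vv e h) h1).trans (vv_dT R w)
  · intro w
    have h1 := vecMul_tel W sz' e w
    have h2 := vecMul_tel W sz' e (rr e h w)
    refine (key R w).trans ?_
    exact (congrArg₂ (fun a b => w + a + b) h2 (congrArg (rr e h) h1)).symm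

end Pool.Agent.Lib.MP_551055_al.MT
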