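import Pool.Agent.Lib.MP_551055_al.MT.StB

/-!
# Many trees: lifting maps through maps which are isomorphisms in homology
-/

set_option autoImplicit false

namespace Pool.Agent.Lib.MP_551055_al.MT

open Pool.Agent.Lib.MP_551055_al
open Matrix

namespace LiftM

section

variable {Γ : Type} [Group Γ] {D : Type} {P : D → Type} [∀ i, PartialOrder (P i)]
  [∀ i, MulAction Γ (P i)] {N : Type} [Monoid N]
  {π : N →* Γ} {U : Finset D}

/-- The differential of the cone of a map to a target. -/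
noncomputable def dC (Q : Co P N) (T : Tg P π U) (g : Q.ι → T.V) :
    ((Q.ι → ZM N) × T.V) →ₗ[ZM N] ((Q.ι → ZM N) × T.V) where
  toFun x := (-(x.1 ᵥ* Q.d), lin (N := N) g x.1 + T.d x.2)
  map_add' x y := by
    refine Prod.ext ?_ ?_
    · change -((x.1 + y.1) ᵥ* Q.d) = -(x.1 ᵥ* Q.d) + -(y.1 ᵥ* Q.d)
      rw [Matrix.add_vecMul, neg_add]
    · change lin (N := N) g (x.1 + y.1) + T.d (x.2 + y.2)
        = lin (N := N) g x.1 + T.d x.2 + (lin (N := N) g y.1 + T.d y.2)
      rw [map_add, map_add]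
      abel
  map_smul' a x := by
    refine Prod.ext ?_ ?_
    · change -((a • x.1) ᵥ* Q.d) = a • (-(x.1 ᵥ* Q.d))
      rw [Matrix.smul_vecMul, smul_neg]
    · change lin (N := N) g (a • x.1) + T.d (a • x.2) = a • (lin (N := N) g x.1 + T.d x.2)
      rw [map_smul, map_smul, smul_add]

theorem dC_apply (Q : Co P N) (T : Tg P π U) (g : Q.ι → T.V) (x : Q.ι → ZM N) (t : T.V) :
    dC Q T g (x, t) = (-(x ᵥ* Q.d), lin (N := N) g x + T.d t) := rfl

/-- The cone of a map to a target. -/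
noncomputable def coneT [SzAct Γ P] (Q : Co P N) (T : Tg P π U) (g : Q.ι → T.V)
    (hQ : IsCx π U Q) (hg : ChT Q T g) : Tg P π U where
  V := (Q.ι → ZM N) × T.V
  ag := inferInstance
  md := inferInstance
  fam B q := (MT.fam π U Q.toOb B (q - 1)).prod (T.fam B q)
  d := dC Q T g
  anti B B' q h := by
    rintro ⟨x, t⟩ ⟨hx, ht⟩
    exact ⟨fam_anti h hx, T.anti B B' q h ht⟩
  act m B q := by
    rintro ⟨x, t⟩ ⟨hx, ht⟩
    exact ⟨fam_act hx m, T.act m B q t ht⟩
  d_mem B q := by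
    rintro ⟨x, t⟩ ⟨hx, ht⟩
    refine ⟨?_, ?_⟩
    · exact AddSubgroup.neg_mem _ (fam_vecMul' hQ.1 hx (by ring))
    · exact AddSubgroup.add_mem _ (hg.mem hx) (T.d_mem B q t ht)
  dd := by
    rintro ⟨x, t⟩
    rw [dC_apply, dC_apply]
    refine Prod.ext ?_ ?_
    · change -((-(x ᵥ* Q.d)) ᵥ* Q.d) = 0
      rw [Matrix.neg_vecMul, Matrix.vecMul_vecMul, hQ.2, Matrix.vecMul_zero, neg_zero, neg_zero]
    · change lin (N := N) g (-(x ᵥ* Q.d)) + T.d (lin (N := N) g x + T.d t) = 0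
      rw [map_neg, hg.2, map_add, T.dd, add_zero, neg_add_cancel]

theorem mem_coneT [SzAct Γ P] (Q : Co P N) (T : Tg P π U) (g : Q.ι → T.V)
    (hQ : IsCx π U Q) (hg : ChT Q T g) (B : Sz P) (q : ℤ) (x : Q.ι → ZM N) (t : T.V) :
    ((x, t) : (coneT Q T g hQ hg).V) ∈ (coneT Q T g hQ hg).fam B q ↔
      x ∈ MT.fam π U Q.toOb B (q - 1) ∧ t ∈ T.fam B q := Iff.rfl

theorem coneT_exact [SzAct Γ P] (Q : Co P N) (T : Tg P π U) (g : Q.ι → T.V)
    (hQ : IsCx π U Q) (hg : ChT Q T g) (hI : ∀ q, InjT Q T g q) (hS : ∀ q, SurT Q T g q)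
    (q : ℤ) (B : Sz P) : (coneT Q T g hQ hg).Zc q B ≤ (coneT Q T g hQ hg).Bc q B := by
  rintro ⟨x, t⟩ ⟨⟨hx, ht⟩, hd⟩
  change x ∈ MT.fam π U Q.toOb B (q - 1) at hx
  change t ∈ T.fam B q at ht
  have hd1 : -(x ᵥ* Q.d) = 0 := congrArg Prod.fst hd
  have hd2 : lin (N := N) g x + T.d t = 0 := congrArg Prod.snd hd
  have hx0 : x ᵥ* Q.d = 0 := neg_eq_zero.1 hd1
  have hxz : x ∈ ZC π U Q (q - 1) B := ⟨hx, hx0⟩
  have h1 : lin (N := N) g x ∈ T.Bc (q - 1) B := by
    refine ⟨-t, ?_, ?_⟩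
    · rw [sub_add_cancel]
      exact AddSubgroup.neg_mem _ ht
    · rw [map_neg]
      exact (eq_neg_of_add_eq_zero_left hd2).symm
  obtain ⟨y, hy, hyx⟩ := hI (q - 1) B x hxz h1
  rw [sub_add_cancel] at hy
  have h2 : t + lin (N := N) g y ∈ T.Zc q B := by
    refine ⟨AddSubgroup.add_mem _ ht (hg.mem hy), ?_⟩
    rw [map_add, ← hg.2, hyx, add_comm]
    exact hd2
  obtain ⟨z, hz, t', ht', hzt⟩ := hS q B _ h2
  refine ⟨(-y + z, -t'), ⟨?_, AddSubgroup.neg_mem _ ht'⟩, ?_⟩
  · change -y + z ∈ MT.fam π U Q.toOb B (q + 1 - 1)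
    rw [add_sub_cancel_right]
    exact AddSubgroup.add_mem _ (AddSubgroup.neg_mem _ hy) hz.1
  · refine Prod.ext ?_ ?_
    · change -((-y + z) ᵥ* Q.d) = x
      rw [Matrix.add_vecMul, Matrix.neg_vecMul, hz.2, hyx, add_zero, neg_neg]
    · change lin (N := N) g (-y + z) + T.d (-t') = t
      rw [map_add, map_neg, map_neg, hzt]
      abel

theorem lin_pair [SzAct Γ P] {Q : Co P N} {T : Tg P π U} {g : Q.ι → T.V}
    {hQ : IsCx π U Q} {hg : ChT Q T g} {κ : Type} [Fintype κ] (a : κ → Q.ι → ZM N)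
    (s : κ → T.V) (x : κ → ZM N) :
    (lin (N := N) (V := (coneT Q T g hQ hg).V) (fun l => (a l, s l)) x)
      = ((x ᵥ* (a : Matrix κ Q.ι (ZM N)), lin (N := N) s x) : (Q.ι → ZM N) × T.V) := by
  have h : (lin (N := N) (V := (coneT Q T g hQ hg).V) (fun l => (a l, s l)) x)
      = ∑ l, x l • ((a l, s l) : (Q.ι → ZM N) × T.V) := rfl
  rw [h]
  refine Prod.ext ?_ ?_
  · rw [Prod.fst_sum]
    exact lin_matrix (a : Matrix κ Q.ι (ZM N)) x
  · rw [Prod.snd_sum]
    rfl

theorem mat_ext {ι κ : Type} [Fintype ι] [DecidableEq ι] {a b : Matrix ι κ (ZM N)}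
    (h : ∀ x : ι → ZM N, x ᵥ* a = x ᵥ* b) : a = b := by
  ext1 i
  have h1 := h (Pi.single i 1)
  rw [← lin_matrix, ← lin_matrix, lin_single, lin_single, one_smul, one_smul] at h1
  intro j
  exact congrFun h1 j

theorem lin_comp {Q : Co P N} {T : Tg P π U} (g : Q.ι → T.V) {κ : Type} [Fintype κ]
    (a : Matrix κ Q.ι (ZM N)) (x : κ → ZM N) :
    lin (N := N) (fun l => lin (N := N) g (a l)) x = lin (N := N) g (x ᵥ* a) := by
  rw [← lin_matrix, lin_apply a x, map_sum, lin_apply]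
  exact Finset.sum_congr rfl fun l _ => (map_smul _ _ _).symm

end

end LiftM

open LiftM

/-- Module Lift. -/
theorem stLift (h : StSolve) : StLift := by
  intro Γ _ D P _ _ _ N _ π U Q K T g hQ hK hg hI hS
  have hex := coneT_exact Q T g hQ hg hI hS
  constructor
  · intro u hu
    obtain ⟨s, hs1, hs2⟩ := h Γ D P N π U K (coneT Q T g hQ hg) hK (-1) 1
      (fun l => ((0, u l) : (Q.ι → ZM N) × T.V))
      (fun l => ⟨AddSubgroup.zero_mem _, by
        change u l ∈ T.fam (K.sz l) (K.deg l + 1 - 1)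
        rw [add_sub_cancel_right]
        exact hu.1 l⟩)
      (fun x => by
        rw [lin_pair (fun _ => 0) u x, lin_pair (fun _ => 0) u (x ᵥ* K.d), neg_smul, one_smul,
          neg_neg]
        have e0 : ∀ y : K.ι → ZM N, y ᵥ* (fun _ => 0 : Matrix K.ι Q.ι (ZM N)) = 0 :=
          fun y => Matrix.vecMul_zero y
        rw [e0, e0]
        change ((-((0 : Q.ι → ZM N) ᵥ* Q.d), lin (N := N) g 0 + T.d (lin (N := N) u x)) :
          (Q.ι → ZM N) × T.V) = (0, lin (N := N) u (x ᵥ* K.d))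
        rw [Matrix.zero_vecMul, neg_zero, map_zero, zero_add, hu.2])
      (fun l => hex _ _)
    set a : Matrix K.ι Q.ι (ZM N) := fun l => (s l).1 with ha
    set s' : K.ι → T.V := fun l => (s l).2 with hs'
    have hs : s = fun l => ((a l, s' l) : (Q.ι → ZM N) × T.V) := rfl
    have key : ∀ x : K.ι → ZM N, (-(x ᵥ* a ᵥ* Q.d) = -(x ᵥ* K.d ᵥ* a)) ∧
        lin (N := N) g (x ᵥ* a) + T.d (lin (N := N) s' x)
          = lin (N := N) u x - lin (N := N) s' (x ᵥ* K.d) := by
      intro x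
      have h1 := hs2 x
      rw [hs, lin_pair a s' x, lin_pair a s' (x ᵥ* K.d), lin_pair (fun _ => 0) u x] at h1
      have h2 := congrArg Prod.fst h1
      have h3 := congrArg Prod.snd h1
      constructor
      · change -(x ᵥ* a ᵥ* Q.d) = x ᵥ* (0 : Matrix K.ι Q.ι (ZM N)) + (-1 : ℤ) • (x ᵥ* K.d ᵥ* a)
          at h2
        rw [h2, Matrix.vecMul_zero, zero_add, neg_smul, one_smul]
      · change lin (N := N) g (x ᵥ* a) + T.d (lin (N := N) s' x)
          = lin (N := N) u x + (-1 : ℤ) • lin (N := N) s' (x ᵥ* K.d) at h3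
        rw [h3, neg_smul, one_smul, sub_eq_add_neg]
    refine ⟨a, ⟨?_, ?_⟩, s', fun l => (hs1 l).2, fun x => ?_⟩
    · rw [ct_iff]
      intro l
      have h1 : (s l).1 ∈ MT.fam π U Q.toOb (K.sz l) (K.deg l + 1 - 1) := (hs1 l).1
      rw [add_sub_cancel_right] at h1
      rw [add_zero]
      exact h1
    · apply mat_ext
      intro x
      rw [← Matrix.vecMul_vecMul, ← Matrix.vecMul_vecMul]
      exact (neg_injective (key x).1).symm
    · have h1 : lin (N := N) (fun l => u l - lin (N := N) g (a l)) x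
          = lin (N := N) u x - lin (N := N) g (x ᵥ* a) := by
        rw [← lin_comp, lin_apply, lin_apply, lin_apply, ← Finset.sum_sub_distrib]
        exact Finset.sum_congr rfl fun l _ => smul_sub _ _ _
      rw [h1, sub_eq_iff_eq_add]
      have h2 := (key x).2
      rw [eq_sub_iff_add_eq] at h2
      rw [← h2]
      abel
  · rintro a ha ⟨s, hs1, hs2⟩
    obtain ⟨b, hb1, hb2⟩ := h Γ D P N π U K (coneT Q T g hQ hg) hK 1 2
      (fun l => ((a l, -(s l)) : (Q.ι → ZM N) × T.V))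
      (fun l => ⟨by
        change a l ∈ MT.fam π U Q.toOb (K.sz l) (K.deg l + 2 - 1 - 1)
        have h1 := (ct_iff.1 ha.1) l
        rw [add_zero] at h1
        have e : K.deg l + 2 - 1 - 1 = K.deg l := by ring
        rw [e]
        exact h1, by
        change -(s l) ∈ T.fam (K.sz l) (K.deg l + 2 - 1)
        have e : K.deg l + 2 - 1 = K.deg l + 1 := by ring
        rw [e]
        exact AddSubgroup.neg_mem _ (hs1 l)⟩)
      (fun x => by
        have e1 : ∀ y : K.ι → ZM N, lin (N := N) (fun l => -(s l)) y = -(lin (N := N) s y) := by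
          intro y
          rw [lin_apply, lin_apply, ← Finset.sum_neg_distrib]
          exact Finset.sum_congr rfl fun l _ => smul_neg _ _
        rw [lin_pair a (fun l => -(s l)) x, lin_pair a (fun l => -(s l)) (x ᵥ* K.d), one_smul,
          e1, e1]
        refine Prod.ext ?_ ?_
        · change -(x ᵥ* a ᵥ* Q.d) = -(x ᵥ* K.d ᵥ* a)
          rw [Matrix.vecMul_vecMul, Matrix.vecMul_vecMul, ha.2]
        · change lin (N := N) g (x ᵥ* a) + T.d (-(lin (N := N) s x))
            = -(-(lin (N := N) s (x ᵥ* K.d)))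
          have h1 := hs2 x
          rw [lin_comp] at h1
          rw [h1, map_neg, neg_neg]
          abel)
      (fun l => hex _ _)
    set c : Matrix K.ι Q.ι (ZM N) := fun l => (b l).1 with hc
    set c' : K.ι → T.V := fun l => (b l).2 with hc'
    have hb : b = fun l => ((c l, c' l) : (Q.ι → ZM N) × T.V) := rfl
    refine ⟨-c, ?_, ?_⟩
    · rw [ct_iff]
      intro l
      have h1 : (b l).1 ∈ MT.fam π U Q.toOb (K.sz l) (K.deg l + 2 - 1) := (hb1 l).1
      have e : K.deg l + 2 - 1 = K.deg l + 1 := by ring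
      rw [e] at h1
      exact AddSubgroup.neg_mem _ h1
    · apply mat_ext
      intro x
      have h1 := hb2 x
      rw [hb, lin_pair c c' x, lin_pair c c' (x ᵥ* K.d), lin_pair a (fun l => -(s l)) x] at h1
      have h2 := congrArg Prod.fst h1
      change -(x ᵥ* c ᵥ* Q.d) = x ᵥ* a + (1 : ℤ) • (x ᵥ* K.d ᵥ* c) at h2
      rw [one_smul] at h2
      rw [Matrix.vecMul_add, ← Matrix.vecMul_vecMul, ← Matrix.vecMul_vecMul, Matrix.vecMul_neg,
        Matrix.vecMul_neg, Matrix.neg_vecMul, h2]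
      abel

end Pool.Agent.Lib.MP_551055_al.MT
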