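import Pool.Agent.Lib.MP_551055_al.MT.Gen

/-!
# Many trees: the statements of part B (resolutions, CW approximations, no trees)
-/

set_option autoImplicit false

namespace Pool.Agent.Lib.MP_551055_al.MT

open Pool.Agent.Lib.MP_551055_al
open Matrix

/-! ## Maps into exact complexes -/

/-- Module Solve. Maps into exact targets, basis element by basis element. -/
def StSolve : Prop :=
  ∀ (Γ : Type) [Group Γ] (D : Type) (P : D → Type) [∀ i, PartialOrder (P i)]
    [∀ i, MulAction Γ (P i)] [SzAct Γ P] (N : Type) [Monoid N] (π : N →* Γ) (U : Finset D)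
    (R : Co P N) (T : Tg P π U), IsCx π U R → ∀ (c δ : ℤ) (f : R.ι → T.V),
    (∀ l, f l ∈ T.fam (R.sz l) (R.deg l + δ - 1)) →
    (∀ x : R.ι → ZM N, T.d (lin (N := N) f x) = -(c • lin (N := N) f (x ᵥ* R.d))) →
    (∀ l, T.Zc (R.deg l + δ - 1) (R.sz l) ≤ T.Bc (R.deg l + δ - 1) (R.sz l)) →
    ∃ s : R.ι → T.V, (∀ l, s l ∈ T.fam (R.sz l) (R.deg l + δ)) ∧
      ∀ x : R.ι → ZM N, T.d (lin (N := N) s x)
        = lin (N := N) f x + c • lin (N := N) s (x ᵥ* R.d)

/-- Module Lift. -/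
def StLift : Prop :=
  ∀ (Γ : Type) [Group Γ] (D : Type) (P : D → Type) [∀ i, PartialOrder (P i)]
    [∀ i, MulAction Γ (P i)] [SzAct Γ P] (N : Type) [Monoid N] (π : N →* Γ) (U : Finset D)
    (Q K : Co P N) (T : Tg P π U) (g : Q.ι → T.V), IsCx π U Q → IsCx π U K → ChT Q T g →
    (∀ q, InjT Q T g q) → (∀ q, SurT Q T g q) →
    (∀ u : K.ι → T.V, ChT K T u → ∃ a : Matrix K.ι Q.ι (ZM N), Ch π U K Q a ∧
      NulT K T fun l => u l - lin (N := N) g (a l)) ∧
    (∀ a : Matrix K.ι Q.ι (ZM N), Ch π U K Q a → NulT K T (fun l => lin (N := N) g (a l)) →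
      Nul π U K Q a)

/-- Module ConeH. Exactness of cones. -/
def StConeH : Prop :=
  ∀ (Γ : Type) [Group Γ] (D : Type) (P : D → Type) [∀ i, PartialOrder (P i)]
    [∀ i, MulAction Γ (P i)] [SzAct Γ P] (N : Type) [Monoid N] (π : N →* Γ) (U : Finset D)
    (M A : Co P N) (h : Matrix M.ι A.ι (ZM N)), IsCx π U M → IsCx π U A → Ch π U M A h →
    ∀ q, HInj π U M A h (q - 1) → HSur π U M A h q → Exa π U (cone M A h) q

/-- Module QI. Chain maps which are isomorphisms in homology are homotopy equivalences. -/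
def StQI : Prop :=
  ∀ (Γ : Type) [Group Γ] (D : Type) (P : D → Type) [∀ i, PartialOrder (P i)]
    [∀ i, MulAction Γ (P i)] [SzAct Γ P] (N : Type) [Monoid N] (π : N →* Γ) (U : Finset D)
    (Q K : Co P N), IsCx π U Q → IsCx π U K →
    (∀ g : Matrix Q.ι K.ι (ZM N), Ch π U Q K g → (∀ q, HInj π U Q K g q) →
      (∀ q, HSur π U Q K g q) → Iso π U Q 1 K 1) ∧
    ((∀ q, Exa π U K q) → Contr π U K)

/-! ## Rings: kernels with finite free resolutions -/

/-- Module Ab. The modules with finite free resolutions over a ring with `RC`. -/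
def StAb : Prop :=
  ∀ (R : Type) [Ring R],
    (∀ (M : Type) [AddCommGroup M] [Module R M], (∃ d, LS.FFF R d M) →
      ∀ (n : ℕ) (g : (Fin n → R) →ₗ[R] M), Function.Surjective g →
        ∃ d, LS.FFF R d (LinearMap.ker g)) ∧
    (RC R → ∀ (A B : Type) [AddCommGroup A] [AddCommGroup B] [Module R A] [Module R B]
      (f : A →ₗ[R] B), (∃ d, LS.FFF R d A) → (∃ d, LS.FFF R d B) →
      (∃ d, LS.FFF R d (LinearMap.ker f)) ∧ (∃ d, LS.FFF R d (LinearMap.range f)) ∧
        ∃ d, LS.FFF R d (B ⧸ LinearMap.range f))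

/-! ## Triangular rings -/

section

variable {R E : Type} [Ring R] [Ring E]

/-- The part `e M` of an `E`-module `M`, where `e = j 1`. -/
def Cr (j : R →ₙ+* E) (M : Type) [AddCommGroup M] [Module E M] : AddSubgroup M where
  carrier := {x | j 1 • x = x}
  zero_mem' := smul_zero _
  add_mem' {a b} ha hb := by
    change j 1 • (a + b) = a + b
    rw [smul_add]
    exact congrArg₂ _ ha hb
  neg_mem' {a} ha := by
    change j 1 • (-a) = -a
    rw [smul_neg]
    exact congrArg _ ha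

theorem mem_Cr {j : R →ₙ+* E} {M : Type} [AddCommGroup M] [Module E M] {x : M} :
    x ∈ Cr j M ↔ j 1 • x = x := Iff.rfl

/-- The part `e M` is a module over `R` through `j`. -/
instance crModule (j : R →ₙ+* E) (M : Type) [AddCommGroup M] [Module E M] :
    Module R (Cr j M) where
  smul r x := ⟨j r • (x : M), by
    change j 1 • (j r • (x : M)) = j r • (x : M)
    rw [smul_smul, ← map_mul, one_mul]⟩
  one_smul x := Subtype.ext x.2
  mul_smul r s x := Subtype.ext (by
    change j (r * s) • (x : M) = j r • (j s • (x : M))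
    rw [map_mul, mul_smul])
  smul_zero r := Subtype.ext (smul_zero (j r))
  smul_add r x y := Subtype.ext (smul_add (j r) (x : M) y)
  add_smul r s x := Subtype.ext (by
    change j (r + s) • (x : M) = j r • (x : M) + j s • (x : M)
    rw [map_add, add_smul])
  zero_smul x := Subtype.ext (by
    change j 0 • (x : M) = 0
    rw [map_zero, zero_smul])

theorem cr_smul (j : R →ₙ+* E) (M : Type) [AddCommGroup M] [Module E M] (r : R) (x : Cr j M) :
    ((r • x : Cr j M) : M) = j r • (x : M) := rfl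

/-- The left ideal `E e`. -/
def PE (e : E) : Submodule E E where
  carrier := {x | x * e = x}
  zero_mem' := zero_mul e
  add_mem' {a b} ha hb := by
    change (a + b) * e = a + b
    rw [add_mul]
    exact congrArg₂ _ ha hb
  smul_mem' c x hx := by
    change c * x * e = c * x
    rw [mul_assoc]
    exact congrArg _ hx

theorem mem_PE {e x : E} : x ∈ PE e ↔ x * e = x := Iff.rfl

end

/-- A ring with a triangular system of orthogonal idempotents `e_a = j a 1`, with coordinates for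
the corner rings, such that the `e_a E e_b` are finitely generated free left modules over
`e_a E e_a`. -/
structure Tri (E : Type) [Ring E] (n : ℕ) (R : Fin n → Type) [∀ b, Ring (R b)]
    (j : ∀ b, R b →ₙ+* E) : Prop where
  orth : ∀ a b, a ≠ b → j a 1 * j b 1 = 0
  sum : ∑ a, j a 1 = 1
  tri : ∀ a b x, b < a → j a 1 * x * j b 1 = 0
  inj : ∀ b, Function.Injective (j b)
  surj : ∀ b x, j b 1 * x * j b 1 = x → ∃ r, j b r = x
  free : ∀ a b, ∃ (k : ℕ) (x : Fin k → E), (∀ i, j a 1 * x i * j b 1 = x i) ∧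
    ∀ y, j a 1 * y * j b 1 = y → ∃! r : Fin k → R a, y = ∑ i, j a (r i) * x i

/-- `M` has a resolution of length `d` by finite direct sums of modules `E e_b`. -/
def FX {E : Type} [Ring E] {n : ℕ} (e : Fin n → E) :
    ℕ → ∀ (M : Type) [AddCommGroup M] [Module E M], Prop
  | 0, M, _, _ => ∃ (k : ℕ) (s : Fin k → Fin n), Nonempty (M ≃ₗ[E] (∀ i, PE (e (s i))))
  | d + 1, M, _, _ => ∃ (k : ℕ) (s : Fin k → Fin n) (f : (∀ i, PE (e (s i))) →ₗ[E] M),
      Function.Surjective f ∧ FX e d (LinearMap.ker f)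

/-- Module FX. -/
def StFX : Prop :=
  ∀ (E : Type) [Ring E] (n : ℕ) (e : Fin n → E), (∀ b, e b * e b = e b) →
    (∀ (d d' : ℕ) (M : Type) [AddCommGroup M] [Module E M], d ≤ d' → FX e d M → FX e d' M) ∧
    (∀ (d : ℕ) (A B C : Type) [AddCommGroup A] [AddCommGroup B] [AddCommGroup C] [Module E A]
      [Module E B] [Module E C] (i : A →ₗ[E] B) (q : B →ₗ[E] C), Function.Injective i →
      Function.Surjective q → LinearMap.range i = LinearMap.ker q →
      (FX e d A → FX e d C → FX e d B) ∧ (FX e d A → FX e d B → FX e (d + 1) C)) ∧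
    (∀ (d : ℕ) (A B : Type) [AddCommGroup A] [AddCommGroup B] [Module E A] [Module E B],
      (A ≃ₗ[E] B) → FX e d A → FX e d B)

/-- Module Tri. -/
def StTri : Prop :=
  ∀ (E : Type) [Ring E] (n : ℕ) (R : Fin n → Type) [∀ b, Ring (R b)]
    (j : ∀ b, R b →ₙ+* E), Tri E n R j → (∀ b, RC (R b)) →
    ∀ (M : Type) [AddCommGroup M] [Module E M], (∀ b, ∃ d, LS.FFF (R b) d (Cr (j b) M)) →
      ∃ d, FX (fun b => j b 1) d M

/-! ## The ring of a system of sizes -/

section

variable {Γ : Type} [Group Γ] {D : Type} {P : D → Type} [∀ i, PartialOrder (P i)]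
  [∀ i, MulAction Γ (P i)] {N : Type} [Monoid N]

/-- `o` is a triangular system of representatives of the sizes below some sizes. -/
structure Reps (π : N →* Γ) {n : ℕ} (o : Fin n → Sz P) : Prop where
  inj : ∀ a b m, π m • o a = o b → a = b
  sort : ∀ a b m, o a ≤ π m • o b → a ≤ b
  down : ∀ a m B, B ≤ π m • o a → ∃ b, ∃ u : Nˣ, B = π u • o b

/-- The matrices all of whose terms `m` in the entry `(a, b)` satisfy `o a ≤ m (o b)`. -/
def TE [SzAct Γ P] (π : N →* Γ) {n : ℕ} (o : Fin n → Sz P) :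
    Subring (Matrix (Fin n) (Fin n) (ZM N)) where
  carrier := {f | ∀ a b m, (f a b).coeff m ≠ 0 → o a ≤ π m • o b}
  mul_mem' {f g} hf hg := by
    intro a b m h
    obtain ⟨j, c, d, hc, hd, hcd⟩ := coeff_matmul_ne h
    intro i
    rw [← hcd, map_mul, mul_smul]
    exact (hf a j c hc i).trans (SzAct.smul_le (hg j b d hd i))
  one_mem' := by
    intro a b m h
    by_cases hab : a = b
    · subst hab
      rw [Matrix.one_apply_eq] at h
      rw [coeff_one_ne h, map_one, one_smul]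
    · rw [Matrix.one_apply_ne hab] at h
      exact absurd rfl h
  add_mem' {f g} hf hg := by
    intro a b m h
    rcases coeff_add_ne h with h | h
    · exact hf a b m h
    · exact hg a b m h
  zero_mem' := fun _ _ _ h => absurd rfl h
  neg_mem' {f} hf := fun a b m h => hf a b m (coeff_neg_ne h)

theorem mem_TE [SzAct Γ P] {π : N →* Γ} {n : ℕ} {o : Fin n → Sz P}
    {f : Matrix (Fin n) (Fin n) (ZM N)} :
    f ∈ TE π o ↔ ∀ a b m, (f a b).coeff m ≠ 0 → o a ≤ π m • o b := Iff.rfl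

/-- The corner rings: `r ↦` the matrix with the entry `r` at `(b, b)`. -/
noncomputable def jE [SzAct Γ P] (π : N →* Γ) {n : ℕ} (o : Fin n → Sz P) (b : Fin n) :
    ZM (stabM π (o b)) →ₙ+* TE π o where
  toFun r := ⟨Matrix.single b b (mdh (stabM π (o b)).subtype r), by
    intro a c m h
    rw [Matrix.single_apply] at h
    split_ifs at h with h1
    · obtain ⟨m', rfl, -⟩ := coeff_mdh_ne h
      rw [← h1.1, ← h1.2]
      have h2 : π ((stabM π (o b)).subtype m') • o b = o b := m'.2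
      rw [h2]
    · exact absurd rfl h⟩
  map_mul' r s := Subtype.ext (by
    change Matrix.single b b (mdh (stabM π (o b)).subtype (r * s)) = Matrix.single b b _ *
      Matrix.single b b _
    rw [Matrix.single_mul_single_same, map_mul])
  map_zero' := Subtype.ext (by
    change Matrix.single b b (mdh (stabM π (o b)).subtype 0) = 0
    rw [map_zero, Matrix.single_zero])
  map_add' r s := Subtype.ext (by
    change Matrix.single b b (mdh (stabM π (o b)).subtype (r + s)) = Matrix.single b b _ +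
      Matrix.single b b _
    rw [map_add, Matrix.single_add])

theorem jE_val [SzAct Γ P] (π : N →* Γ) {n : ℕ} (o : Fin n → Sz P) (b : Fin n)
    (r : ZM (stabM π (o b))) :
    (jE π o b r).1 = Matrix.single b b (mdh (stabM π (o b)).subtype r) := rfl

/-- The matrices with `n` rows, as a module over `TE π o`. -/
def Rw (N : Type) [Monoid N] (n : ℕ) (ι : Type) : Type := Fin n → ι → ZM N

noncomputable instance (n : ℕ) (ι : Type) : AddCommGroup (Rw N n ι) :=
  inferInstanceAs (AddCommGroup (Fin n → ι → ZM N))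

noncomputable instance modTE [SzAct Γ P] (π : N →* Γ) {n : ℕ} (o : Fin n → Sz P) (ι : Type) :
    Module (TE π o) (Rw N n ι) where
  smul f v := fun a k => ∑ b, f.1 a b * v b k
  one_smul v := Matrix.one_mul (show Matrix (Fin n) ι (ZM N) from v)
  mul_smul f g v := Matrix.mul_assoc f.1 g.1 (show Matrix (Fin n) ι (ZM N) from v)
  smul_zero f := Matrix.mul_zero f.1
  smul_add f v w := Matrix.mul_add f.1 (show Matrix (Fin n) ι (ZM N) from v) w
  add_smul f g v := Matrix.add_mul f.1 g.1 (show Matrix (Fin n) ι (ZM N) from v)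
  zero_smul v := Matrix.zero_mul (show Matrix (Fin n) ι (ZM N) from v)

theorem modTE_smul [SzAct Γ P] (π : N →* Γ) {n : ℕ} (o : Fin n → Sz P) (ι : Type) (f : TE π o)
    (v : Rw N n ι) (a : Fin n) (k : ι) : (f • v) a k = ∑ b, f.1 a b * v b k := rfl

/-- The module of a family. -/
noncomputable def ML [SzAct Γ P] (π : N →* Γ) {n : ℕ} (o : Fin n → Sz P) (ι : Type)
    (L : Sz P → AddSubgroup (ι → ZM N)) (hL : Fam π L) :
    Submodule (TE π o) (Rw N n ι) where
  carrier := {v | ∀ a, v a ∈ L (o a)}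
  zero_mem' := fun a => (L (o a)).zero_mem
  add_mem' hv hw := fun a => (L (o a)).add_mem (hv a) (hw a)
  smul_mem' f v hv := by
    intro a
    have h1 : (f • v) a = ∑ b, f.1 a b • v b := by
      funext k
      rw [modTE_smul, Finset.sum_apply]
      rfl
    rw [h1]
    exact AddSubgroup.sum_mem _ fun b _ => hL.smul_mem (fun m hm => f.2 a b m hm) (hv b)

/-- Restriction of scalars to a submonoid. -/
def Rs (_S : Submonoid N) (V : Type) : Type := V

instance (S : Submonoid N) (V : Type) [h : AddCommGroup V] : AddCommGroup (Rs S V) := h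

noncomputable instance rsModule (S : Submonoid N) (V : Type) [AddCommGroup V]
    [Module (ZM N) V] : Module (ZM S) (Rs S V) := Module.compHom V (mdh S.subtype)

theorem rs_smul (S : Submonoid N) (V : Type) [AddCommGroup V] [Module (ZM N) V] (a : ZM S)
    (x : Rs S V) : a • x = (show Rs S V from (mdh S.subtype a • (show V from x) : V)) := rfl

/-- `L A` as a module over the ring of the stabiliser of `A`. -/
noncomputable def famSub (π : N →* Γ) {V : Type} [AddCommGroup V] [Module (ZM N) V]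
    (L : Sz P → AddSubgroup V) (hL : Fam π L) (A : Sz P) :
    Submodule (ZM (stabM π A)) (Rs (stabM π A) V) where
  carrier := {x | (show V from x) ∈ L A}
  zero_mem' := (L A).zero_mem
  add_mem' hv hw := (L A).add_mem hv hw
  smul_mem' c x hx := by
    change (mdh (stabM π A).subtype c • (show V from x) : V) ∈ L A
    refine hL.smul_mem (A := A) (fun m hm => ?_) hx
    obtain ⟨m', rfl, -⟩ := coeff_mdh_ne hm
    have h2 : π ((stabM π A).subtype m') • A = A := m'.2
    rw [h2]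

theorem mem_famSub {π : N →* Γ} {V : Type} [AddCommGroup V] [Module (ZM N) V]
    {L : Sz P → AddSubgroup V} {hL : Fam π L} {A : Sz P} {x : V} :
    (show Rs (stabM π A) V from x) ∈ famSub π L hL A ↔ x ∈ L A := Iff.rfl

/-- `L` has a finite resolution by finite free objects, the first of which is in degree `c`. -/
def HasRes [Fintype D] (π : N →* Γ) (X : Ob P) (L : Sz P → AddSubgroup (X.ι → ZM N)) (q c : ℤ) :
    Prop :=
  ∃ (R : Co P N) (r : Matrix R.ι X.ι (ZM N)), IsCx π Finset.univ R ∧ (∀ l, c ≤ R.deg l) ∧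
    (∀ l k m, (r l k).coeff m ≠ 0 → R.deg l = c ∧ X.deg k = q ∧
      ∀ i, R.sz l i ≤ π m • X.sz k i) ∧ R.d * r = 0 ∧
    (∀ B, ∀ y ∈ fam π Finset.univ R.toOb B c, y ᵥ* r ∈ L B) ∧
    (∀ B, ∀ x ∈ L B, ∃ y ∈ fam π Finset.univ R.toOb B c, y ᵥ* r = x) ∧
    (∀ B, ∀ y ∈ fam π Finset.univ R.toOb B c, y ᵥ* r = 0 → y ∈ BC π Finset.univ R c B) ∧
    ∀ n, c < n → Exa π Finset.univ R n

end

/-- Module Cos. The elements `m` with `A ≤ m A'` are a finite disjoint union of cosets of the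
stabiliser of `A`. -/
def StCos : Prop :=
  ∀ (Γ : Type) [Group Γ] (D : Type) [Fintype D] (P : D → Type) [∀ i, PartialOrder (P i)]
    [∀ i, MulAction Γ (P i)] [SzAct Γ P] [SzRk Γ P] (N : Type) [Monoid N] (π : N →* Γ), UL π →
    ∀ A A' : Sz P, ∃ (k : ℕ) (u : Fin k → Nˣ), (∀ i, A ≤ π (u i) • A') ∧
      ∀ y : ZM N, (∀ m, y.coeff m ≠ 0 → A ≤ π m • A') →
        ∃! r : Fin k → ZM (stabM π A), y = ∑ i, mdh (stabM π A).subtype (r i) *
          MonoidAlgebra.single (u i : N) 1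

/-- Module Reps. -/
def StReps : Prop :=
  ∀ (Γ : Type) [Group Γ] (D : Type) [Fintype D] (P : D → Type) [∀ i, PartialOrder (P i)]
    [∀ i, MulAction Γ (P i)] [SzAct Γ P] [SzRk Γ P] (N : Type) [Monoid N] (π : N →* Γ), UL π →
    ∀ (ι : Type) [Finite ι] (A : ι → Sz P), ∃ (n : ℕ) (o : Fin n → Sz P), Reps π o ∧
      ∀ l, ∃ b, ∃ u : Nˣ, A l = π u • o b

/-- Module TEa. The ring `TE π o` is triangular. -/
def StTEa : Prop :=
  ∀ (Γ : Type) [Group Γ] (D : Type) [Fintype D] (P : D → Type) [∀ i, PartialOrder (P i)]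
    [∀ i, MulAction Γ (P i)] [SzAct Γ P] [SzRk Γ P] (N : Type) [Monoid N] (π : N →* Γ), UL π →
    ∀ (n : ℕ) (o : Fin n → Sz P), Reps π o →
      Tri (TE π o) n (fun b => ZM (stabM π (o b))) (jE π o)

/-- Module XF. Finite free objects give finitely generated free modules over the rings of the
stabilisers. -/
def StXF : Prop :=
  ∀ (Γ : Type) [Group Γ] (D : Type) [Fintype D] (P : D → Type) [∀ i, PartialOrder (P i)]
    [∀ i, MulAction Γ (P i)] [SzAct Γ P] [SzRk Γ P] (N : Type) [Monoid N] (π : N →* Γ), UL π →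
    ∀ (X : Ob P) (q : ℤ) (hL : Fam π (fun B => fam π Finset.univ X B q)) (A : Sz P),
      ∃ n : ℕ, Nonempty (famSub π (fun B => fam π Finset.univ X B q) hL A
        ≃ₗ[ZM (stabM π A)] (Fin n → ZM (stabM π A)))

/-- Module ResTr. Resolutions over the ring `TE π o` give resolutions of families. -/
def StResTr : Prop :=
  ∀ (Γ : Type) [Group Γ] (D : Type) [Fintype D] (P : D → Type) [∀ i, PartialOrder (P i)]
    [∀ i, MulAction Γ (P i)] [SzAct Γ P] [SzRk Γ P] (N : Type) [Monoid N] (π : N →* Γ), UL π →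
    ∀ (n : ℕ) (o : Fin n → Sz P), Reps π o → ∀ (d : ℕ) (X : Ob P),
      (∀ l, ∃ b, ∃ u : Nˣ, X.sz l = π u • o b) →
      ∀ (q : ℤ) (L : Sz P → AddSubgroup (X.ι → ZM N)) (hL : Fam π L),
        (∀ B, L B ≤ fam π Finset.univ X B q) → FX (fun b => jE π o b 1) d (ML π o X.ι L hL) →
        ∀ c : ℤ, HasRes π X L q c

/-- Module Res. -/
def StRes : Prop :=
  ∀ (Γ : Type) [Group Γ] (D : Type) [Fintype D] (P : D → Type) [∀ i, PartialOrder (P i)]
    [∀ i, MulAction Γ (P i)] [SzAct Γ P] [SzRk Γ P] (N : Type) [Monoid N] (π : N →* Γ), UL π →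
    HN P π → ∀ (X : Ob P) (q : ℤ) (L : Sz P → AddSubgroup (X.ι → ZM N)) (hL : Fam π L),
      (∀ B, L B ≤ fam π Finset.univ X B q) →
      (∀ A, ∃ d, LS.FFF (ZM (stabM π A)) d (famSub π L hL A)) → ∀ c : ℤ, HasRes π X L q c

/-- Module Ker. Kernels have finite resolutions. -/
def StKer : Prop :=
  ∀ (Γ : Type) [Group Γ] (D : Type) [Fintype D] (P : D → Type) [∀ i, PartialOrder (P i)]
    [∀ i, MulAction Γ (P i)] [SzAct Γ P] [SzRk Γ P] (N : Type) [Monoid N] (π : N →* Γ), UL π →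
    HN P π → ∀ (X Y : Ob P) (r : ℤ) (f : Matrix X.ι Y.ι (ZM N)), Ct π Finset.univ r X Y f →
      ∀ q c : ℤ, HasRes π X (kerF π Finset.univ X f q) q c

/-- Module Trunc. Truncation. -/
def StTrunc : Prop :=
  ∀ (Γ : Type) [Group Γ] (D : Type) [Fintype D] (P : D → Type) [∀ i, PartialOrder (P i)]
    [∀ i, MulAction Γ (P i)] [SzAct Γ P] [SzRk Γ P] (N : Type) [Monoid N] (π : N →* Γ), UL π →
    HN P π → ∀ K : Co P N, IsCx π Finset.univ K → ∀ a : ℤ,
      ∃ (A : Co P N) (j : Matrix K.ι A.ι (ZM N)), IsCx π Finset.univ A ∧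
        Ch π Finset.univ K A j ∧
        (∀ q, q ≤ a → HInj π Finset.univ K A j q ∧ HSur π Finset.univ K A j q) ∧
        ∀ q, a < q → Exa π Finset.univ A q

/-! ## CW approximations -/

section

variable {Γ : Type} [Group Γ] {D : Type} [Fintype D] {P : D → Type} [∀ i, PartialOrder (P i)]
  [∀ i, MulAction Γ (P i)] {N : Type} [Monoid N]

/-- `(Q, g)` is a CW approximation of `T` up to degree `n`. -/
structure CWP {π : N →* Γ} (T : Tg P π Finset.univ) (a n : ℤ) (Q : Co P N) (g : Q.ι → T.V) :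
    Prop where
  cx : IsCx π Finset.univ Q
  ch : ChT Q T g
  lo : ∀ l, a ≤ Q.deg l
  hi : ∀ l, Q.deg l ≤ n
  sur : ∀ q, q ≤ n → SurT Q T g q
  inj : ∀ q, q < n → InjT Q T g q

end

/-- Module CWStep. -/
def StCWStep : Prop :=
  ∀ (Γ : Type) [Group Γ] (D : Type) [Fintype D] (P : D → Type) [∀ i, PartialOrder (P i)]
    [∀ i, MulAction Γ (P i)] [SzAct Γ P] [SzRk Γ P] (N : Type) [Monoid N] (π : N →* Γ), UL π →
    HN P π → ∀ (T : Tg P π Finset.univ) (K : Co P N) (e : Matrix K.ι K.ι (ZM N)),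
    IsCx π Finset.univ K → IsoL T K e →
    ∀ (a n : ℤ) (Q : Co P N) (g : Q.ι → T.V), a ≤ n + 1 → CWP T a n Q g →
      ∃ (Q' : Co P N) (g' : Q'.ι → T.V), CWP T a (n + 1) Q' g'

/-- Module CWFin. -/
def StCWFin : Prop :=
  ∀ (Γ : Type) [Group Γ] (D : Type) [Fintype D] (P : D → Type) [∀ i, PartialOrder (P i)]
    [∀ i, MulAction Γ (P i)] [SzAct Γ P] [SzRk Γ P] (N : Type) [Monoid N] (π : N →* Γ), UL π →
    HN P π → ∀ (T : Tg P π Finset.univ) (a n : ℤ) (Q : Co P N) (g : Q.ι → T.V),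
      CWP T a n Q g → (∀ q, n ≤ q → ∀ B, T.Zc q B ≤ T.Bc q B) →
      ∃ (Q' : Co P N) (g' : Q'.ι → T.V), IsCx π Finset.univ Q' ∧ ChT Q' T g' ∧
        (∀ q, InjT Q' T g' q) ∧ ∀ q, SurT Q' T g' q

/-- Module CW. -/
def StCW : Prop :=
  ∀ (Γ : Type) [Group Γ] (D : Type) [Fintype D] (P : D → Type) [∀ i, PartialOrder (P i)]
    [∀ i, MulAction Γ (P i)] [SzAct Γ P] [SzRk Γ P] (N : Type) [Monoid N] (π : N →* Γ), UL π →
    HN P π → ∀ (T : Tg P π Finset.univ) (K : Co P N) (e : Matrix K.ι K.ι (ZM N)),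
    IsCx π Finset.univ K → IsoL T K e →
      ∃ (Q : Co P N) (g : Q.ι → T.V), IsCx π Finset.univ Q ∧ ChT Q T g ∧
        (∀ q, InjT Q T g q) ∧ ∀ q, SurT Q T g q

/-- Module PF. Full control: homotopy idempotents split. -/
def StPF : Prop :=
  ∀ (Γ : Type) [Group Γ] (D : Type) [Fintype D] [DecidableEq D] (P : D → Type)
    [∀ i, PartialOrder (P i)] [∀ i, MulAction Γ (P i)] [SzAct Γ P] [SzRk Γ P],
    (∀ (G : Type) [Group G] (π : G →* Γ), Good P π → HN P π) → SU Γ P Finset.univ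

/-! ## Lattices -/

/-- Module Resc. Rescaling the basis by powers of the variable. -/
def StResc : Prop :=
  ∀ (Γ : Type) [Group Γ] (D : Type) (P : D → Type) [∀ i, PartialOrder (P i)]
    [∀ i, MulAction Γ (P i)] [SzAct Γ P] (G : Type) [Group G] (π : G →* Γ) (V : Finset D)
    (M : Co P (GZ G)), IsCx (pZ π) V M →
    ∃ M₀ : Co P (GN G), IsCx (pN π) V M₀ ∧ Iso (pZ π) V (M₀.map (loc G)) 1 M 1

/-- Module Cube. -/
def StCube : Prop :=
  ∀ (Γ : Type) [Group Γ] (D : Type) [DecidableEq D] (P : D → Type) [∀ i, PartialOrder (P i)]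
    [∀ i, MulAction Γ (P i)] [SzAct Γ P] (G : Type) [Group G] (π : G →* Γ) (V I : Finset D)
    (C : Co P (GN G)), IsCx (pN π) V C → (∀ i ∈ I, Contr (pZ π) (V.erase i) (C.map (loc G))) →
    ∃ (W : Co P (GN G)) (p : Matrix W.ι C.ι (ZM (GN G))) (s : Matrix C.ι W.ι (ZM (GZ G))),
      IsCx (pN π) V W ∧ Ch (pN π) V W C p ∧ Ch (pZ π) V (C.map (loc G)) (W.map (loc G)) s ∧
      s * p.map (loc G) = 1 ∧ ∀ i ∈ I, Contr (pN π) (V.erase i) W

/-- Module N1. A finite complex over `ℤ[G × ℕ]` whose localisation is `M ⊕ M[1]`. -/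
def StN1 : Prop :=
  ∀ (Γ : Type) [Group Γ] (D : Type) [DecidableEq D] (P : D → Type) [∀ i, PartialOrder (P i)]
    [∀ i, MulAction Γ (P i)] [SzAct Γ P] (G : Type) [Group G] (π : G →* Γ) (V I : Finset D)
    (M : Co P (GZ G)), IsCx (pZ π) V M → (∀ i ∈ I, Contr (pZ π) (V.erase i) M) →
    ∃ (N₁ : Co P (GN G)) (κ : Matrix M.ι N₁.ι (ZM (GZ G))), IsCx (pN π) V N₁ ∧
      (∀ i ∈ I, Contr (pN π) (V.erase i) N₁) ∧ Ch (pZ π) V M (N₁.map (loc G)) κ ∧
      (∀ q, HInj (pZ π) V M (N₁.map (loc G)) κ q) ∧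
      ∀ a : ℤ, (∀ q, q < a → Exa (pZ π) V M q) →
        ∀ q, q ≤ a → HSur (pZ π) V M (N₁.map (loc G)) κ q

/-- Module LocH. Localisation and homology. -/
def StLocH : Prop :=
  ∀ (Γ : Type) [Group Γ] (D : Type) (P : D → Type) [∀ i, PartialOrder (P i)]
    [∀ i, MulAction Γ (P i)] [SzAct Γ P] (G : Type) [Group G] (π : G →* Γ) (V : Finset D)
    (K A : Co P (GN G)) (j : Matrix K.ι A.ι (ZM (GN G))), IsCx (pN π) V K → IsCx (pN π) V A →
    Ch (pN π) V K A j → ∀ q,
    (HInj (pN π) V K A j q →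
      HInj (pZ π) V (K.map (loc G)) (A.map (loc G)) (j.map (loc G)) q) ∧
    (HSur (pN π) V K A j q →
      HSur (pZ π) V (K.map (loc G)) (A.map (loc G)) (j.map (loc G)) q) ∧
    (Exa (pN π) V A q → Exa (pZ π) V (A.map (loc G)) q)

/-- Module L5. Glueing of lattices. -/
def StL5 : Prop :=
  ∀ (Γ : Type) [Group Γ] (D : Type) (P : D → Type) [∀ i, PartialOrder (P i)]
    [∀ i, MulAction Γ (P i)] [SzAct Γ P] (G : Type) [Group G] (π : G →* Γ) (V : Finset D)
    (M A Y : Co P (GZ G)) (h : Matrix M.ι A.ι (ZM (GZ G))), IsCx (pZ π) V M →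
    IsCx (pZ π) V A → IsCx (pZ π) V Y → Ch (pZ π) V M A h → Iso (pZ π) V (cone M A h) 1 Y 1 →
    ∃ θ : Matrix A.ι Y.ι (ZM (GZ G)), Ch (pZ π) V A Y θ ∧
      ∀ m : ℤ, Iso (pZ π) V (cone A Y (zZ G m • θ)).us 1 M 1

end Pool.Agent.Lib.MP_551055_al.MT
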